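import Pool.Agent.Lib.SmK.Anat
import Pool.Agent.Lib.Sm.JDefs

/-!
SMITH over F_q(t), block K (anatomy), part 7: the set of the monic squarefree polynomials whose large
prime factors have distinct degrees is the disjoint union of grids.

A grid is a pair `(Ds, T)`: `Ds` is the part of `D` composed of the primes of degree less than `N0`,
`T` the set of the degrees of the other primes; the points of the grid are the families
`x t`, `t ∈ T`, of monic irreducible polynomials of degree `t`, and `D = Ds * ∏ t, x t`.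
-/

set_option autoImplicit false

open Polynomial Finset

namespace Pool.Agent.SmK

open Pool.Agent.BSDP.R (primesOf)

variable {k : Type} [Field k]

/-- the large prime factors have distinct degrees -/
def Dist (N0 : ℕ) (D : k[X]) : Prop :=
  ∀ P ∈ primesOf D, ∀ Q ∈ primesOf D, N0 ≤ P.natDegree → P.natDegree = Q.natDegree → P = Q

theorem dvd_prod_iff {S : Finset k[X]} (hS : ∀ P ∈ S, P.Monic ∧ Irreducible P) {Q : k[X]}
    (hQ : Q.Monic ∧ Irreducible Q) : Q ∣ ∏ P ∈ S, P ↔ Q ∈ S := by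
  constructor
  · intro h
    obtain ⟨P, hP, hQP⟩ := (Prime.dvd_finsetProd_iff hQ.2.prime _).1 h
    have h1 := hQ.2.associated_of_dvd (hS P hP).2 hQP
    rwa [eq_of_monic_of_associated hQ.1 (hS P hP).1 h1]
  · intro h
    exact dvd_prod_of_mem (fun P => P) h

theorem primesOf_prod {S : Finset k[X]} (hS : ∀ P ∈ S, P.Monic ∧ Irreducible P) :
    primesOf (∏ P ∈ S, P) = S := by
  ext Q
  have h0 : (∏ P ∈ S, P) ≠ 0 := prod_ne_zero_iff.2 fun P hP => (hS P hP).1.ne_zero
  rw [mem_primesOf h0]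
  constructor
  · rintro ⟨h1, h2, h3⟩
    exact (dvd_prod_iff hS ⟨h1, h2⟩).1 h3
  · intro h
    exact ⟨(hS Q h).1, (hS Q h).2, dvd_prod_of_mem (fun P => P) h⟩

theorem squarefree_prod {S : Finset k[X]} (hS : ∀ P ∈ S, P.Monic ∧ Irreducible P) :
    Squarefree (∏ P ∈ S, P) := by
  refine Finset.squarefree_prod_of_pairwise_isCoprime ?_ ?_
  · intro P hP Q hQ hPQ
    exact (coprime_of_ne (hS P hP) (hS Q hQ) hPQ).isRelPrime
  · intro P hP
    exact (hS P hP).2.squarefree

theorem prod_primesOf {D : k[X]} (hm : D.Monic) (hD : Squarefree D) :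
    ∏ P ∈ primesOf D, P = D := by
  classical
  have hnod := (UniqueFactorizationMonoid.squarefree_iff_nodup_normalizedFactors hm.ne_zero).1 hD
  unfold primesOf
  rw [Finset.prod, Multiset.toFinset_val, Multiset.map_id']
  have h1 : (UniqueFactorizationMonoid.normalizedFactors D).dedup =
      UniqueFactorizationMonoid.normalizedFactors D := Multiset.dedup_eq_self.2 (by
    convert hnod)
  have h2 := UniqueFactorizationMonoid.prod_normalizedFactors_eq hm.ne_zero
  rw [hm.normalize_eq_self] at h2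
  refine Eq.trans ?_ h2
  convert congrArg Multiset.prod h1

/-- the points of the grids with set of degrees `T` -/
abbrev Pts (k : Type) [Field k] (T : Finset ℕ) : Type := (t : T) → Sm.Irr k (t : ℕ)

/-- the polynomial belonging to a point of a grid -/
noncomputable def ev (g : k[X] × Finset ℕ) (x : Pts k g.2) : k[X] := g.1 * ∏ t, (x t).1

/-- `g` is a grid -/
structure IsGrid (B : Finset k[X]) (N0 n : ℕ) (g : k[X] × Finset ℕ) : Prop where
  monic : g.1.Monic
  sqf : Squarefree g.1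
  notdvd : ∀ P ∈ B, ¬ P ∣ g.1
  small : ∀ P ∈ primesOf g.1, P.natDegree < N0
  large : ∀ t ∈ g.2, N0 ≤ t
  deg : g.1.natDegree + ∑ t ∈ g.2, t = n

theorem x_inj {T : Finset ℕ} (x : Pts k T) : Function.Injective (fun t : T => (x t).1) := by
  intro t t' h
  apply Subtype.ext
  have h1 := (x t).2.2.2
  have h2 := (x t').2.2.2
  simp only at h
  rw [← h1, ← h2, h]

open Classical in
/-- the large primes -/
noncomputable def xs {T : Finset ℕ} (x : Pts k T) : Finset k[X] := univ.image fun t => (x t).1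

theorem mem_xs {T : Finset ℕ} (x : Pts k T) {P : k[X]} : P ∈ xs x ↔ ∃ t, (x t).1 = P := by
  unfold xs
  simp

theorem xs_irr {T : Finset ℕ} (x : Pts k T) {P : k[X]} (hP : P ∈ xs x) :
    P.Monic ∧ Irreducible P ∧ P.natDegree ∈ T := by
  obtain ⟨t, rfl⟩ := (mem_xs x).1 hP
  refine ⟨(x t).2.1, (x t).2.2.1, ?_⟩
  have := (x t).2.2.2
  rw [this]
  exact t.2

theorem prod_xs {T : Finset ℕ} (x : Pts k T) : ∏ t, (x t).1 = ∏ P ∈ xs x, P := by
  classical
  unfold xs
  rw [prod_image fun t _ t' _ h => x_inj x h]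

theorem card_xs {T : Finset ℕ} (x : Pts k T) : #(xs x) = #T := by
  classical
  unfold xs
  rw [card_image_of_injective _ (x_inj x), card_univ, Fintype.card_coe]

theorem primesOf_irr {D : k[X]} (hD : D ≠ 0) {P : k[X]} (hP : P ∈ primesOf D) :
    P.Monic ∧ Irreducible P := by
  rw [mem_primesOf hD] at hP
  exact ⟨hP.1, hP.2.1⟩

open Classical in
theorem ev_eq {B : Finset k[X]} {N0 n : ℕ} {g : k[X] × Finset ℕ} (hg : IsGrid B N0 n g)
    (x : Pts k g.2) : Disjoint (primesOf g.1) (xs x) ∧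
      ev g x = ∏ P ∈ primesOf g.1 ∪ xs x, P := by
  have h1 : Disjoint (primesOf g.1) (xs x) := by
    rw [disjoint_left]
    intro P hP hP'
    have h2 := hg.small P hP
    have h3 := hg.large _ (xs_irr x hP').2.2
    omega
  refine ⟨h1, ?_⟩
  rw [prod_union h1, prod_primesOf hg.monic hg.sqf, ← prod_xs]
  rfl

open Classical in
theorem union_irr {B : Finset k[X]} {N0 n : ℕ} {g : k[X] × Finset ℕ} (hg : IsGrid B N0 n g)
    (x : Pts k g.2) : ∀ P ∈ primesOf g.1 ∪ xs x, P.Monic ∧ Irreducible P := by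
  intro P hP
  rcases mem_union.1 hP with h | h
  · exact primesOf_irr hg.monic.ne_zero h
  · exact ⟨(xs_irr x h).1, (xs_irr x h).2.1⟩

open Classical in
theorem primesOf_ev {B : Finset k[X]} {N0 n : ℕ} {g : k[X] × Finset ℕ} (hg : IsGrid B N0 n g)
    (x : Pts k g.2) : primesOf (ev g x) = primesOf g.1 ∪ xs x := by
  rw [(ev_eq hg x).2, primesOf_prod (union_irr hg x)]

variable [Finite k]

theorem ev_mem {B : Finset k[X]} (hB : ∀ P ∈ B, P.Monic ∧ Irreducible P) {N0 n : ℕ}
    (hN : ∀ P ∈ B, P.natDegree < N0) {g : k[X] × Finset ℕ} (hg : IsGrid B N0 n g)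
    (x : Pts k g.2) : ev g x ∈ DD B n ∧ Dist N0 (ev g x) := by
  classical
  have h0 := (ev_eq hg x).2
  have hm : (ev g x).Monic := by
    rw [h0]
    exact monic_prod_of_monic _ _ fun P hP => (union_irr hg x P hP).1
  refine ⟨mem_DD.2 ⟨hm, ?_, ?_, ?_⟩, ?_⟩
  · unfold ev
    rw [hg.monic.natDegree_mul (monic_prod_of_monic _ _ fun t _ => (x t).2.1),
      natDegree_prod_of_monic _ _ fun t _ => (x t).2.1]
    rw [sum_congr rfl fun t _ => (x t).2.2.2]
    have h1 : ∑ t : g.2, (t : ℕ) = ∑ t ∈ g.2, t := sum_coe_sort g.2 (fun t => t)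
    rw [h1]
    exact hg.deg
  · rw [h0]
    exact squarefree_prod (union_irr hg x)
  · intro P hP hd
    rw [h0, dvd_prod_iff (union_irr hg x) (hB P hP), mem_union] at hd
    rcases hd with hd | hd
    · exact hg.notdvd P hP ((mem_primesOf hg.monic.ne_zero).1 hd).2.2
    · have h1 := hg.large _ (xs_irr x hd).2.2
      have h2 := hN P hP
      omega
  · intro P hP Q hQ hPN hdeg
    rw [primesOf_ev hg, mem_union] at hP hQ
    rcases hP with hP | hP
    · have := hg.small P hP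
      omega
    rcases hQ with hQ | hQ
    · have := hg.small Q hQ
      omega
    obtain ⟨t, rfl⟩ := (mem_xs x).1 hP
    obtain ⟨t', rfl⟩ := (mem_xs x).1 hQ
    have h1 := (x t).2.2.2
    have h2 := (x t').2.2.2
    rw [h1, h2] at hdeg
    have h3 : t = t' := Subtype.ext hdeg
    rw [h3]

omit [Finite k] in
theorem ev_inj {B : Finset k[X]} {N0 n : ℕ} {g g' : k[X] × Finset ℕ} (hg : IsGrid B N0 n g)
    (hg' : IsGrid B N0 n g') (x : Pts k g.2) (x' : Pts k g'.2) (h : ev g x = ev g' x') :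
    (⟨g, x⟩ : Σ g : k[X] × Finset ℕ, Pts k g.2) = ⟨g', x'⟩ := by
  classical
  have hu : primesOf g.1 ∪ xs x = primesOf g'.1 ∪ xs x' := by
    rw [← primesOf_ev hg, ← primesOf_ev hg', h]
  have key : ∀ {g g' : k[X] × Finset ℕ} (_ : IsGrid B N0 n g) (_ : IsGrid B N0 n g')
      (x : Pts k g.2) (x' : Pts k g'.2) (_ : primesOf g.1 ∪ xs x = primesOf g'.1 ∪ xs x'),
      xs x ⊆ xs x' := by
    intro g g' hg hg' x x' hu P hP
    have h1 : P ∈ primesOf g'.1 ∪ xs x' := by
      rw [← hu]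
      exact mem_union_right _ hP
    rcases mem_union.1 h1 with h2 | h2
    · have h3 := hg'.small P h2
      have h4 := hg.large _ (xs_irr x hP).2.2
      omega
    · exact h2
  have hxs : xs x = xs x' := Subset.antisymm (key hg hg' x x' hu) (key hg' hg x' x hu.symm)
  have hmem : ∀ {T : Finset ℕ} (x : Pts k T) (t : ℕ), t ∈ T ↔ ∃ P ∈ xs x, P.natDegree = t := by
    intro T x t
    constructor
    · intro ht
      exact ⟨(x ⟨t, ht⟩).1, (mem_xs x).2 ⟨⟨t, ht⟩, rfl⟩, (x ⟨t, ht⟩).2.2.2⟩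
    · rintro ⟨P, hP, rfl⟩
      exact (xs_irr x hP).2.2
  obtain ⟨Ds, T⟩ := g
  obtain ⟨Ds', T'⟩ := g'
  have hT : T = T' := by
    ext t
    rw [hmem x t, hmem x' t, hxs]
  subst hT
  have hx : x = x' := by
    funext t
    apply Subtype.ext
    have h1 : (x t).1 ∈ xs x' := by
      rw [← hxs]
      exact (mem_xs x).2 ⟨t, rfl⟩
    obtain ⟨t', ht'⟩ := (mem_xs x').1 h1
    have h2 := (x t).2.2.2
    have h3 := (x' t').2.2.2
    rw [ht'] at h3
    have h4 : t' = t := Subtype.ext (h3.symm.trans h2)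
    rw [← ht', h4]
  subst hx
  have hD : Ds = Ds' := by
    unfold ev at h
    simp only at h
    refine mul_right_cancel₀ ?_ h
    exact (monic_prod_of_monic _ _ fun t _ => (x t).2.1).ne_zero
  subst hD
  rfl

theorem ev_surj {B : Finset k[X]} {N0 n : ℕ} {D : k[X]} (hD : D ∈ DD B n) (hd : Dist N0 D) :
    ∃ g : k[X] × Finset ℕ, IsGrid B N0 n g ∧ ∃ x : Pts k g.2, ev g x = D := by
  classical
  obtain ⟨hm, hdeg, hsq, hBD⟩ := mem_DD.1 hD
  have hD0 := hm.ne_zero
  set S := {P ∈ primesOf D | P.natDegree < N0} with hS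
  set L := {P ∈ primesOf D | ¬ P.natDegree < N0} with hL
  have hSirr : ∀ P ∈ S, P.Monic ∧ Irreducible P := fun P hP =>
    primesOf_irr hD0 (mem_filter.1 hP).1
  have hLirr : ∀ P ∈ L, P.Monic ∧ Irreducible P := fun P hP =>
    primesOf_irr hD0 (mem_filter.1 hP).1
  have hinj : ∀ P ∈ L, ∀ Q ∈ L, P.natDegree = Q.natDegree → P = Q := by
    intro P hP Q hQ h
    rw [hL, mem_filter] at hP hQ
    exact hd P hP.1 Q hQ.1 (by omega) h
  have hprod : (∏ P ∈ S, P) * ∏ P ∈ L, P = D := by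
    rw [hS, hL, prod_filter_mul_prod_filter_not, prod_primesOf hm hsq]
  have hsum : (∏ P ∈ S, P).natDegree + ∑ t ∈ L.image natDegree, t = n := by
    rw [sum_image fun P hP Q hQ h => hinj P hP Q hQ h, ← hdeg]
    conv_rhs => rw [← hprod]
    rw [(monic_prod_of_monic _ _ fun P hP => (hSirr P hP).1).natDegree_mul
      (monic_prod_of_monic _ _ fun P hP => (hLirr P hP).1)]
    congr 1
    rw [natDegree_prod_of_monic _ _ fun P hP => (hLirr P hP).1]
  refine ⟨(∏ P ∈ S, P, L.image natDegree), ⟨?_, ?_, ?_, ?_, ?_, hsum⟩, ?_⟩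
  · exact monic_prod_of_monic _ _ fun P hP => (hSirr P hP).1
  · exact squarefree_prod hSirr
  · intro P hP hPd
    refine hBD P hP (hPd.trans ?_)
    rw [← hprod]
    exact dvd_mul_right _ _
  · intro P hP
    simp only at hP
    rw [primesOf_prod hSirr] at hP
    exact (mem_filter.1 hP).2
  · intro t ht
    simp only [mem_image] at ht
    obtain ⟨P, hP, rfl⟩ := ht
    have := (mem_filter.1 hP).2
    omega
  · have hch : ∀ t : L.image natDegree, ∃ P ∈ L, P.natDegree = t := by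
      intro t
      obtain ⟨P, hP, h⟩ := mem_image.1 t.2
      exact ⟨P, hP, h⟩
    choose f hf1 hf2 using hch
    refine ⟨fun t => ⟨f t, (hLirr _ (hf1 t)).1, (hLirr _ (hf1 t)).2, hf2 t⟩, ?_⟩
    have h1 : xs (T := L.image natDegree) (fun t => (⟨f t, (hLirr _ (hf1 t)).1,
        (hLirr _ (hf1 t)).2, hf2 t⟩ : Sm.Irr k (t : ℕ))) = L := by
      ext P
      rw [mem_xs]
      constructor
      · rintro ⟨t, rfl⟩
        exact hf1 t
      · intro hP
        refine ⟨⟨P.natDegree, mem_image_of_mem _ hP⟩, ?_⟩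
        exact hinj _ (hf1 _) P hP (hf2 _)
    unfold ev
    rw [prod_xs, h1]
    exact hprod

open Classical in
/-- the finite set of all grids -/
noncomputable def Grid (B : Finset k[X]) (N0 n : ℕ) : Finset (k[X] × Finset ℕ) :=
  {g ∈ ((range (n + 1)).biUnion (Mon k)) ×ˢ (range (n + 1)).powerset | IsGrid B N0 n g}

theorem mem_Grid {B : Finset k[X]} {N0 n : ℕ} {g : k[X] × Finset ℕ} :
    g ∈ Grid B N0 n ↔ IsGrid B N0 n g := by
  classical
  unfold Grid
  rw [mem_filter, and_iff_right_iff_imp]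
  intro hg
  have h1 := hg.deg
  rw [mem_product, mem_biUnion, mem_powerset]
  refine ⟨⟨g.1.natDegree, mem_range.2 (by omega), mem_Mon.2 ⟨hg.monic, rfl⟩⟩, fun t ht => ?_⟩
  have h2 : t ≤ ∑ t ∈ g.2, t := single_le_sum (f := fun t => t) (fun _ _ => Nat.zero_le _) ht
  exact mem_range.2 (by omega)

/-- the bijection between the points of all grids and the polynomials whose large prime factors have
distinct degrees -/
noncomputable def gridEquiv (B : Finset k[X]) (hB : ∀ P ∈ B, P.Monic ∧ Irreducible P) (N0 n : ℕ)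
    (hN : ∀ P ∈ B, P.natDegree < N0) :
    (Σ g : {g : k[X] × Finset ℕ // g ∈ Grid B N0 n}, Pts k g.1.2) ≃
      {D : k[X] // D ∈ DD B n ∧ Dist N0 D} :=
  Equiv.ofBijective (fun p => ⟨ev p.1.1 p.2, ev_mem hB hN (mem_Grid.1 p.1.2) p.2⟩) (by
    constructor
    · rintro ⟨⟨g, hg⟩, x⟩ ⟨⟨g', hg'⟩, x'⟩ h
      have h1 := ev_inj (mem_Grid.1 hg) (mem_Grid.1 hg') x x' (congrArg Subtype.val h)
      obtain ⟨rfl, h2⟩ := Sigma.mk.inj_iff.1 h1
      rw [heq_iff_eq] at h2
      subst h2
      rfl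
    · rintro ⟨D, hD, hd⟩
      obtain ⟨g, hg, x, hx⟩ := ev_surj hD hd
      exact ⟨⟨⟨g, mem_Grid.2 hg⟩, x⟩, Subtype.ext hx⟩)

theorem gridEquiv_apply (B : Finset k[X]) (hB : ∀ P ∈ B, P.Monic ∧ Irreducible P) (N0 n : ℕ)
    (hN : ∀ P ∈ B, P.natDegree < N0)
    (p : Σ g : {g : k[X] × Finset ℕ // g ∈ Grid B N0 n}, Pts k g.1.2) :
    (gridEquiv B hB N0 n hN p).1 = ev p.1.1 p.2 := rfl

instance finIrr (d : ℕ) : Finite (Sm.Irr k d) := by
  have h1 : Sm.Irr k d ⊆ {f : k[X] | f.Monic ∧ f.natDegree = d} := fun P hP => ⟨hP.1, hP.2.2⟩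
  exact ((finite_monic k d).subset h1).to_subtype

theorem natCard_Irr (d : ℕ) : Nat.card (Sm.Irr k d) = #(Irr k d) := by
  have h1 : #(Irr k d) = Nat.card {P : k[X] // P ∈ Irr k d} := by
    rw [Nat.card_eq_fintype_card, Fintype.card_coe]
  rw [h1]
  refine Nat.card_congr (Equiv.subtypeEquivRight fun P => ?_)
  rw [mem_Irr]
  constructor
  · rintro ⟨h2, h3, h4⟩
    exact ⟨h2, h4, h3⟩
  · rintro ⟨h2, h3, h4⟩
    exact ⟨h2, h4, h3⟩

open Classical in
/-- sums over the polynomials whose large prime factors have distinct degrees -/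
theorem grid_sum {A : Type*} [AddCommMonoid A] [∀ d, Fintype (Sm.Irr k d)] (B : Finset k[X])
    (hB : ∀ P ∈ B, P.Monic ∧ Irreducible P) (N0 n : ℕ) (hN : ∀ P ∈ B, P.natDegree < N0)
    (F : k[X] → A) : ∑ D ∈ DD B n with Dist N0 D, F D =
      ∑ g ∈ Grid B N0 n, ∑ x : Pts k g.2, F (ev g x) := by
  have hF : Fintype {D : k[X] // D ∈ DD B n ∧ Dist N0 D} :=
    Fintype.subtype {D ∈ DD B n | Dist N0 D} (fun D => mem_filter)
  have h1 : ∑ D ∈ DD B n with Dist N0 D, F D =
      ∑ D : {D : k[X] // D ∈ DD B n ∧ Dist N0 D}, F D.1 := by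
    rw [← sum_subtype (p := fun D => D ∈ DD B n ∧ Dist N0 D)
      ({D ∈ DD B n | Dist N0 D}) (fun D => mem_filter)]
  rw [h1, ← (gridEquiv B hB N0 n hN).sum_comp, Fintype.sum_sigma,
    ← sum_coe_sort (Grid B N0 n) (fun g => ∑ x : Pts k g.2, F (ev g x))]
  rfl

/-- the number of points of a grid -/
theorem card_Pts (T : Finset ℕ) : Nat.card (Pts k T) = ∏ t ∈ T, #(Irr k t) := by
  rw [Nat.card_pi]
  simp only [natCard_Irr]
  exact prod_coe_sort T (fun t => #(Irr k t))

end Pool.Agent.SmK
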