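import Pool.Agent.Lib.SmK.Count

/-!
SMITH over F_q(t), block K (anatomy), part 2: the set `DD B n` of the monic squarefree polynomials of
degree `n` prime to the finite set `B` of monic irreducible polynomials, and the lower bound
`c * q ^ n` for its cardinality.
-/

set_option autoImplicit false

open Polynomial Finset

namespace Pool.Agent.SmK

section dd

variable {k : Type*} [Field k] [Finite k]

open Classical in
/-- monic squarefree polynomials of degree `n` prime to the elements of `B` -/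
noncomputable def DD (B : Finset k[X]) (n : ℕ) : Finset k[X] :=
  {D ∈ Mon k n | Squarefree D ∧ ∀ P ∈ B, ¬ P ∣ D}

theorem mem_DD {B : Finset k[X]} {n : ℕ} {D : k[X]} :
    D ∈ DD B n ↔ D.Monic ∧ D.natDegree = n ∧ Squarefree D ∧ ∀ P ∈ B, ¬ P ∣ D := by
  classical
  unfold DD
  rw [mem_filter, mem_Mon, and_assoc]

theorem DD_subset (B : Finset k[X]) (n : ℕ) : DD B n ⊆ Mon k n := by
  classical
  exact filter_subset _ _

omit [Finite k] in
theorem natCard_degreeLT (n : ℕ) : Nat.card (degreeLT k n) = Nat.card k ^ n := by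
  rw [Nat.card_congr (degreeLTEquiv k n).toEquiv, Nat.card_fun, Nat.card_fin]

/-- few monic polynomials in a residue class -/
theorem card_cong_le {G : k[X]} (hG : G.Monic) {m : ℕ} {S : Finset k[X]} (hS : S ⊆ Mon k m)
    (h : ∀ H ∈ S, ∀ H' ∈ S, G ∣ H - H') : #S ≤ Nat.card k ^ (m - G.natDegree) := by
  classical
  rcases S.eq_empty_or_nonempty with rfl | ⟨H0, hH0⟩
  · rw [card_empty]
    exact Nat.zero_le _
  have h1 : ∀ H : S, ∃ E : degreeLT k (m - G.natDegree), (H : k[X]) - H0 = G * E.1 := by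
    rintro ⟨H, hH⟩
    obtain ⟨E, hE⟩ := h H hH H0 hH0
    have hH1 := mem_Mon.1 (hS hH)
    have hH2 := mem_Mon.1 (hS hH0)
    refine ⟨⟨E, ?_⟩, hE⟩
    rw [mem_degreeLT]
    by_cases hE0 : E = 0
    · rw [hE0, degree_zero]
      exact WithBot.bot_lt_coe _
    · have h2 : (H - H0).degree < m := by
        have h3 := degree_sub_lt_left (p := H) (q := H0)
          (by rw [degree_eq_natDegree hH1.1.ne_zero, degree_eq_natDegree hH2.1.ne_zero,
            hH1.2, hH2.2]) hH1.1.ne_zero (by rw [hH1.1.leadingCoeff, hH2.1.leadingCoeff])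
        rwa [degree_eq_natDegree hH1.1.ne_zero, hH1.2] at h3
      have h4 : H - H0 ≠ 0 := by
        rw [hE]
        exact mul_ne_zero hG.ne_zero hE0
      rw [degree_eq_natDegree h4, hE, hG.natDegree_mul' hE0] at h2
      have h5 : G.natDegree + E.natDegree < m := by exact_mod_cast h2
      rw [degree_eq_natDegree hE0]
      have h6 : E.natDegree < m - G.natDegree := by omega
      exact_mod_cast h6
  choose φ hφ using h1
  have hinj : Function.Injective φ := by
    intro H H' hHH
    have h2 : (H : k[X]) - H0 = H' - H0 := by rw [hφ, hφ, hHH]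
    exact Subtype.ext (sub_left_inj.1 h2)
  have hfin : Finite (degreeLT k (m - G.natDegree)) := by
    apply Nat.finite_of_card_ne_zero
    rw [natCard_degreeLT]
    exact (pow_pos Nat.card_pos _).ne'
  have h3 := Nat.card_le_card_of_injective φ hinj
  rw [natCard_degreeLT, Nat.card_eq_fintype_card, Fintype.card_coe] at h3
  exact h3

omit [Finite k] in
/-- a monic polynomial which is not squarefree is divisible by the square of a monic prime -/
theorem exists_sq_dvd {D : k[X]} (hD : D ≠ 0) (h : ¬ Squarefree D) :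
    ∃ P : k[X], P.Monic ∧ Irreducible P ∧ P ^ 2 ∣ D := by
  classical
  rw [squarefree_iff_irreducible_sq_not_dvd_of_ne_zero hD] at h
  push Not at h
  obtain ⟨P, hP, hPD⟩ := h
  refine ⟨normalize P, monic_normalize hP.ne_zero, (normalize_associated P).irreducible_iff.2 hP, ?_⟩
  have h1 : Associated (normalize P ^ 2) (P * P) := by
    rw [sq]
    exact (normalize_associated P).mul_mul (normalize_associated P)
  exact h1.dvd.trans hPD

theorem card_DD_ge (B : Finset k[X]) (hB : ∀ P ∈ B, P.Monic ∧ Irreducible P)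
    (h3 : 3 ≤ Nat.card k) : ∃ c : ℝ, 0 < c ∧ ∃ n0 : ℕ, ∀ n : ℕ, n0 ≤ n →
      c * (Nat.card k : ℝ) ^ n ≤ #(DD B n) := by
  classical
  set q := Nat.card k with hq
  set R : k[X] := ∏ P ∈ B, P with hR
  have hRm : R.Monic := monic_prod_of_monic _ _ fun P hP => (hB P hP).1
  set r := R.natDegree with hr
  have hq0 : (0 : ℝ) < q := by
    have : (0 : ℕ) < q := by omega
    exact_mod_cast this
  have hq3 : (3 : ℝ) ≤ q := by exact_mod_cast h3
  refine ⟨1 / (4 * (q : ℝ) ^ r), by positivity, 2 * r + 4, fun n hn => ?_⟩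
  set m := n - r with hm
  have hnm : r + m = n := by omega
  -- the map
  have hmon : ∀ H ∈ Mon k m, (R * H + 1) ∈ Mon k n := by
    intro H hH
    rw [mem_Mon] at hH
    have h1 : (R * H).Monic := hRm.mul hH.1
    have h2 : (R * H).natDegree = n := by
      rw [hRm.natDegree_mul hH.1, hH.2]
      exact hnm
    have h4 : (1 : k[X]).degree < (R * H).degree := by
      rw [degree_one, degree_eq_natDegree h1.ne_zero, h2]
      have : 0 < n := by omega
      exact_mod_cast this
    rw [mem_Mon]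
    exact ⟨h1.add_of_left h4, (natDegree_add_eq_left_of_degree_lt h4).trans h2⟩
  set bad : Finset k[X] := {H ∈ Mon k m | ¬ Squarefree (R * H + 1)} with hbad
  have hgood : #((Mon k m) \ bad) ≤ #(DD B n) := by
    refine card_le_card_of_injOn (fun H => R * H + 1) ?_ ?_
    · intro H hH
      rw [mem_coe, mem_sdiff, hbad, mem_filter, not_and, not_not] at hH
      have h1 := mem_Mon.1 (hmon H hH.1)
      rw [mem_coe, mem_DD]
      refine ⟨h1.1, h1.2, hH.2 hH.1, fun P hP hdvd => ?_⟩
      have h2 : P ∣ R * H := (dvd_prod_of_mem (fun P => P) hP).mul_right _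
      exact (hB P hP).2.not_isUnit (isUnit_of_dvd_one ((dvd_add_right h2).1 hdvd))
    · intro H _ H' _ hHH
      simp only [add_left_inj] at hHH
      exact mul_left_cancel₀ hRm.ne_zero hHH
  have hbadcard : (bad.card : ℝ) ≤ (q : ℝ) ^ m / 2 + 2 * (q : ℝ) ^ (n / 2) := by
    have h1 : bad ⊆ (Icc 1 (n / 2)).biUnion (fun e => (Irr k e).biUnion
        (fun P => {H ∈ Mon k m | P ^ 2 ∣ R * H + 1})) := by
      intro H hH
      rw [hbad, mem_filter] at hH
      have h2 := mem_Mon.1 (hmon H hH.1)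
      obtain ⟨P, hP1, hP2, hP3⟩ := exists_sq_dvd h2.1.ne_zero hH.2
      have h4 := natDegree_le_of_dvd hP3 h2.1.ne_zero
      rw [natDegree_pow, h2.2] at h4
      rw [mem_biUnion]
      refine ⟨P.natDegree, ?_, ?_⟩
      · rw [mem_Icc]
        exact ⟨hP2.natDegree_pos, by omega⟩
      · rw [mem_biUnion]
        exact ⟨P, mem_Irr.2 ⟨hP1, rfl, hP2⟩, mem_filter.2 ⟨hH.1, hP3⟩⟩
    have h2 : ∀ e ∈ Icc 1 (n / 2), ∀ P ∈ Irr k e,
        #{H ∈ Mon k m | P ^ 2 ∣ R * H + 1} ≤ q ^ (m - 2 * e) := by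
      intro e _ P hP
      rw [mem_Irr] at hP
      have h4 := card_cong_le (G := P ^ 2) (hP.1.pow 2) (m := m)
        (S := {H ∈ Mon k m | P ^ 2 ∣ R * H + 1}) (filter_subset _ _) ?_
      · rwa [natDegree_pow, hP.2.1] at h4
      · intro H hH H' hH'
        rw [mem_filter] at hH hH'
        have h5 : P ^ 2 ∣ R * (H - H') := by
          have h6 := dvd_sub hH.2 hH'.2
          have e1 : R * H + 1 - (R * H' + 1) = R * (H - H') := by ring
          rwa [e1] at h6
        have h6 : IsCoprime (P ^ 2) R := by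
          apply IsCoprime.pow_left
          rw [hP.2.2.coprime_iff_not_dvd]
          intro hPR
          have h7 : P ∣ R * H + 1 := (dvd_pow_self P two_ne_zero).trans hH.2
          exact hP.2.2.not_isUnit (isUnit_of_dvd_one
            ((dvd_add_right (hPR.mul_right H)).1 h7))
        exact h6.dvd_of_dvd_mul_left h5
    have h4 : bad.card ≤ ∑ e ∈ Icc 1 (n / 2), q ^ e * q ^ (m - 2 * e) := by
      refine (card_le_card h1).trans (card_biUnion_le.trans (sum_le_sum fun e he => ?_))
      refine card_biUnion_le.trans ((sum_le_sum (h2 e he)).trans ?_)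
      rw [sum_const, smul_eq_mul]
      refine Nat.mul_le_mul_right _ ?_
      have h5 := mul_card_Irr_le k e
      rw [mem_Icc] at he
      calc #(Irr k e) = 1 * #(Irr k e) := (one_mul _).symm
        _ ≤ e * #(Irr k e) := Nat.mul_le_mul_right _ he.1
        _ ≤ _ := h5
    have h5 : ∀ e ∈ Icc 1 (n / 2), ((q ^ e * q ^ (m - 2 * e) : ℕ) : ℝ) ≤
        (q : ℝ) ^ m * (1 / q : ℝ) ^ e + (q : ℝ) ^ e := by
      intro e he
      push_cast
      by_cases h2e : 2 * e ≤ m
      · have h6 : (q : ℝ) ^ e * (q : ℝ) ^ (m - 2 * e) = (q : ℝ) ^ m * (1 / q : ℝ) ^ e := by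
          rw [one_div, inv_pow, ← div_eq_mul_inv, eq_div_iff (by positivity), ← pow_add, ← pow_add]
          congr 1
          omega
        rw [h6]
        have : (0 : ℝ) ≤ (q : ℝ) ^ e := by positivity
        linarith
      · have h6 : m - 2 * e = 0 := by omega
        rw [h6, pow_zero, mul_one]
        have : (0 : ℝ) ≤ (q : ℝ) ^ m * (1 / q : ℝ) ^ e := by positivity
        linarith
    have h6 : (bad.card : ℝ) ≤ ∑ e ∈ Icc 1 (n / 2), ((q : ℝ) ^ m * (1 / q : ℝ) ^ e + (q : ℝ) ^ e) := by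
      refine le_trans ?_ (sum_le_sum h5)
      exact_mod_cast h4
    refine h6.trans ?_
    rw [sum_add_distrib, ← mul_sum]
    have h7 : ∑ e ∈ Icc 1 (n / 2), (1 / q : ℝ) ^ e ≤ 1 / 2 := by
      have h8 : ∀ N : ℕ, ∑ e ∈ Icc 1 N, (1 / q : ℝ) ^ e ≤ 1 / 2 - (1 / 2) * (1 / q : ℝ) ^ N := by
        intro N
        induction N with
        | zero => simp
        | succ N ih =>
          rw [sum_Icc_succ_top (by omega)]
          have h9 : (1 / q : ℝ) ≤ 1 / 3 := one_div_le_one_div_of_le (by norm_num) hq3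
          have h10 : (0 : ℝ) ≤ (1 / q : ℝ) ^ N := by positivity
          rw [pow_succ]
          nlinarith
      have h9 := h8 (n / 2)
      have h10 : (0 : ℝ) ≤ (1 / q : ℝ) ^ (n / 2) := by positivity
      linarith
    have h8 : ∑ e ∈ Icc 1 (n / 2), (q : ℝ) ^ e ≤ 2 * (q : ℝ) ^ (n / 2) := by
      have := sum_pow_le q (by omega) (n / 2)
      exact_mod_cast this
    have h9 : (0 : ℝ) ≤ (q : ℝ) ^ m := by positivity
    nlinarith
  have hcard : (#((Mon k m) \ bad) : ℝ) = (q : ℝ) ^ m - bad.card := by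
    rw [card_sdiff_of_subset (filter_subset _ _), Nat.cast_sub (card_filter_le _ _), card_Mon]
    push_cast
    rfl
  have hgood' : (#((Mon k m) \ bad) : ℝ) ≤ #(DD B n) := by exact_mod_cast hgood
  have h8 : 8 * (q : ℝ) ^ (n / 2) ≤ (q : ℝ) ^ m := by
    have h9 : (q : ℝ) ^ (n / 2 + 2) ≤ (q : ℝ) ^ m :=
      pow_le_pow_right₀ (by linarith) (by omega)
    have h10 : (q : ℝ) ^ (n / 2 + 2) = (q : ℝ) ^ (n / 2) * q ^ 2 := pow_add _ _ _
    have h11 : (0 : ℝ) ≤ (q : ℝ) ^ (n / 2) := by positivity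
    have h13 : (8 : ℝ) ≤ (q : ℝ) ^ 2 := by nlinarith
    calc 8 * (q : ℝ) ^ (n / 2) = (q : ℝ) ^ (n / 2) * 8 := mul_comm _ _
      _ ≤ (q : ℝ) ^ (n / 2) * (q : ℝ) ^ 2 := mul_le_mul_of_nonneg_left h13 h11
      _ = (q : ℝ) ^ (n / 2 + 2) := h10.symm
      _ ≤ _ := h9
  have h12 : 1 / (4 * (q : ℝ) ^ r) * (q : ℝ) ^ n = (q : ℝ) ^ m / 4 := by
    rw [← hnm, pow_add]
    field_simp
  rw [h12]
  linarith

end dd

end Pool.Agent.SmK
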