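import Mathlib

/-!
SMITH over F_q(t), block K (anatomy), part 5: real analysis.
-/

set_option autoImplicit false

open Filter

namespace Pool.Agent.SmK

private theorem tL : Tendsto (fun n : ℕ => Real.log n) atTop atTop :=
  Real.tendsto_log_atTop.comp tendsto_natCast_atTop_atTop

private theorem tN : Tendsto (fun n : ℕ => ⌊Real.log n ^ 3⌋₊) atTop atTop :=
  tendsto_nat_floor_atTop.comp ((tendsto_pow_atTop (by norm_num)).comp tL)

private theorem asy1 (ε : ℝ) (hε : 0 < ε) : ∀ᶠ n : ℕ in atTop,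
    3 ≤ ⌊Real.log n ^ 3⌋₊ ∧ 2 / (⌊Real.log n ^ 3⌋₊ : ℝ) ≤ ε := by
  have h1 := tN.eventually (eventually_ge_atTop 3)
  have h2 := tN.eventually (eventually_ge_atTop ⌈2 / ε⌉₊)
  filter_upwards [h1, h2] with n h3 h4
  refine ⟨h3, ?_⟩
  have h5 : (2 / ε : ℝ) ≤ ⌊Real.log n ^ 3⌋₊ := (Nat.le_ceil _).trans (by exact_mod_cast h4)
  have h6 : (0 : ℝ) < ⌊Real.log n ^ 3⌋₊ := lt_of_lt_of_le (by positivity) h5
  rw [div_le_iff₀ hε] at h5
  rw [div_le_iff₀ h6]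
  linarith

private theorem asy0 (ε : ℝ) (hε : 0 < ε) : ∀ᶠ x : ℝ in atTop,
    Real.exp (1 + x) ≤ ε * (2 : ℝ) ^ (2 * x) := by
  have h2 : (0.69 : ℝ) < Real.log 2 := by
    have := Real.log_two_gt_d9
    linarith
  filter_upwards [eventually_ge_atTop ((1 - Real.log ε) / (2 * Real.log 2 - 1))] with x hx
  have h3 : 0 < 2 * Real.log 2 - 1 := by linarith
  rw [div_le_iff₀ h3] at hx
  have h4 : ε * (2 : ℝ) ^ (2 * x) = Real.exp (Real.log ε + Real.log 2 * (2 * x)) := by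
    rw [Real.exp_add, Real.exp_log hε, Real.rpow_def_of_pos (by norm_num)]
  rw [h4, Real.exp_le_exp]
  nlinarith

private theorem asy2 (ε : ℝ) (hε : 0 < ε) : ∀ᶠ n : ℕ in atTop,
    Real.exp (1 + Real.log n) ≤ ε * (2 : ℝ) ^ (2 * Real.log n) :=
  tL.eventually (asy0 ε hε)

private theorem asy3 (ε : ℝ) (hε : 0 < ε) : ∀ᶠ n : ℕ in atTop,
    Real.exp (1 + Real.log (⌊Real.log n ^ 3⌋₊ : ℝ)) ≤
      ε * (2 : ℝ) ^ (6 * Real.log (Real.log n)) := by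
  have h1 : Tendsto (fun n : ℕ => 3 * Real.log (Real.log n)) atTop atTop :=
    (Real.tendsto_log_atTop.comp tL).const_mul_atTop (by norm_num)
  filter_upwards [h1.eventually (asy0 ε hε), tN.eventually (eventually_ge_atTop 1),
    tL.eventually (eventually_ge_atTop 1)] with n h2 h3 h4
  have e1 : 6 * Real.log (Real.log n) = 2 * (3 * Real.log (Real.log n)) := by ring
  rw [e1]
  refine le_trans ?_ h2
  rw [Real.exp_le_exp]
  have h5 : (⌊Real.log n ^ 3⌋₊ : ℝ) ≤ Real.log n ^ 3 := Nat.floor_le (by positivity)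
  have h6 : (0 : ℝ) < ⌊Real.log n ^ 3⌋₊ := by exact_mod_cast h3
  have h7 := Real.log_le_log h6 h5
  rw [Real.log_pow] at h7
  push_cast at h7
  linarith

private theorem asy4 (m : ℕ) (hm : 0 < m) : ∀ᶠ n : ℕ in atTop,
    ⌊Real.log n ^ 3⌋₊ + 1 ≤ n / 2 / m + 1 ∧
      Real.log n / 2 ≤ Real.log ((n / 2 / m + 1 : ℕ) : ℝ) -
        Real.log ((⌊Real.log n ^ 3⌋₊ + 1 : ℕ) : ℝ) := by
  have hm' : (0 : ℝ) < m := by exact_mod_cast hm
  have h1 : ∀ᶠ x : ℝ in atTop, Real.log x ^ (3 : ℝ) ≤ 1 / (4 * m) * x ^ (1 / 2 : ℝ) := by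
    have h2 := (isLittleO_log_rpow_rpow_atTop (3 : ℝ)
      (show (0 : ℝ) < 1 / 2 by norm_num)).bound (show (0 : ℝ) < 1 / (4 * m) by positivity)
    filter_upwards [h2, eventually_ge_atTop 1] with x hx hx1
    have h3 : 0 ≤ Real.log x := Real.log_nonneg hx1
    rw [Real.norm_of_nonneg (by positivity), Real.norm_of_nonneg (by positivity)] at hx
    exact hx
  have h4 : ∀ᶠ x : ℝ in atTop, 1 ≤ 1 / (4 * m) * x ^ (1 / 2 : ℝ) := by
    have h5 : Tendsto (fun x : ℝ => 1 / (4 * (m : ℝ)) * x ^ (1 / 2 : ℝ)) atTop atTop :=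
      (tendsto_rpow_atTop (by norm_num)).const_mul_atTop (by positivity)
    exact h5.eventually (eventually_ge_atTop 1)
  filter_upwards [tendsto_natCast_atTop_atTop.eventually h1,
    tendsto_natCast_atTop_atTop.eventually h4, tL.eventually (eventually_ge_atTop 1),
    eventually_ge_atTop 1] with n h5 h6 h7 h8
  have hn : (1 : ℝ) ≤ n := by exact_mod_cast h8
  have hn0 : (0 : ℝ) < n := by linarith
  set y := (n : ℝ) ^ (1 / 2 : ℝ) with hy
  have hy0 : 0 < y := by positivity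
  have hyy : y * y = n := by
    rw [hy, ← Real.rpow_add hn0]
    norm_num
  have h9 : (⌊Real.log n ^ 3⌋₊ : ℝ) ≤ 1 / (4 * m) * y := by
    refine (Nat.floor_le (by positivity)).trans ?_
    have h10 : Real.log n ^ (3 : ℝ) = Real.log n ^ 3 := by
      rw [← Real.rpow_natCast]
      norm_num
    rwa [h10] at h5
  have h11 : ((⌊Real.log n ^ 3⌋₊ + 1 : ℕ) : ℝ) ≤ 1 / (2 * m) * y := by
    push_cast
    have e1 : 1 / (2 * (m : ℝ)) * y = 1 / (4 * m) * y + 1 / (4 * m) * y := by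
      field_simp
      norm_num
    rw [e1]
    linarith
  have h12 : (n : ℝ) / (2 * m) ≤ ((n / 2 / m + 1 : ℕ) : ℝ) := by
    rw [Nat.div_div_eq_div_mul]
    have h13 := Nat.lt_div_mul_add (a := n) (b := 2 * m) (by positivity)
    rw [div_le_iff₀ (by positivity)]
    have h14 : n ≤ (n / (2 * m) + 1) * (2 * m) := by
      rw [add_mul, one_mul]
      exact h13.le
    exact_mod_cast h14
  have h15 : y * ((⌊Real.log n ^ 3⌋₊ + 1 : ℕ) : ℝ) ≤ ((n / 2 / m + 1 : ℕ) : ℝ) := by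
    refine le_trans ?_ h12
    calc y * ((⌊Real.log n ^ 3⌋₊ + 1 : ℕ) : ℝ) ≤ y * (1 / (2 * m) * y) :=
          mul_le_mul_of_nonneg_left h11 hy0.le
      _ = y * y / (2 * m) := by ring
      _ = (n : ℝ) / (2 * m) := by rw [hyy]
  have hy1 : 1 ≤ y := by
    rw [hy]
    exact Real.one_le_rpow hn (by norm_num)
  have h16 : (0 : ℝ) < ((⌊Real.log n ^ 3⌋₊ + 1 : ℕ) : ℝ) := by positivity
  constructor
  · have h17 : ((⌊Real.log n ^ 3⌋₊ + 1 : ℕ) : ℝ) ≤ ((n / 2 / m + 1 : ℕ) : ℝ) := by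
      refine le_trans ?_ h15
      nlinarith
    exact_mod_cast h17
  · have h18 := Real.log_le_log (by positivity) h15
    rw [Real.log_mul hy0.ne' h16.ne', hy, Real.log_rpow hn0] at h18
    linarith

private theorem asy5 (ε : ℝ) (hε : 0 < ε) (c : ℝ) : ∀ᶠ n : ℕ in atTop,
    c ≤ ε * Real.log n := by
  filter_upwards [tL.eventually (eventually_ge_atTop (c / ε))] with n h
  rw [div_le_iff₀ hε] at h
  linarith

/-- all asymptotic facts -/
theorem asy (m : ℕ) (hm : 0 < m) (ε : ℝ) (hε : 0 < ε) : ∃ n0 : ℕ, ∀ n : ℕ, n0 ≤ n →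
    3 ≤ ⌊Real.log n ^ 3⌋₊ ∧ 2 / (⌊Real.log n ^ 3⌋₊ : ℝ) ≤ ε ∧
    Real.exp (1 + Real.log n) ≤ ε * (2 : ℝ) ^ (2 * Real.log n) ∧
    Real.exp (1 + Real.log (⌊Real.log n ^ 3⌋₊ : ℝ)) ≤
      ε * (2 : ℝ) ^ (6 * Real.log (Real.log n)) ∧
    ⌊Real.log n ^ 3⌋₊ + 1 ≤ n / 2 / m + 1 ∧
    Real.log n / 2 ≤ Real.log ((n / 2 / m + 1 : ℕ) : ℝ) -
        Real.log ((⌊Real.log n ^ 3⌋₊ + 1 : ℕ) : ℝ) ∧
    16 * (m : ℝ) ≤ ε * Real.log n ∧ 1 ≤ Real.log n := by
  have h := (asy1 ε hε).and ((asy2 ε hε).and ((asy3 ε hε).and ((asy4 m hm).and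
    ((asy5 ε hε (16 * m)).and (asy5 1 one_pos 1)))))
  obtain ⟨n0, hn0⟩ := eventually_atTop.1 h
  refine ⟨n0, fun n hn => ?_⟩
  obtain ⟨⟨h1, h2⟩, h3, h4, ⟨h5, h6⟩, h7, h8⟩ := hn0 n hn
  rw [one_mul] at h8
  exact ⟨h1, h2, h3, h4, h5, h6, h7, h8⟩

end Pool.Agent.SmK
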