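import Pool.Agent.Lib.SmK.Mom

/-!
SMITH over F_q(t), block K (anatomy), part 4: sums of `q ^ (-deg P)` over monic irreducible
polynomials with prescribed degrees, and the number of monic polynomials with two prime factors of
the same large degree.
-/

set_option autoImplicit false

open Polynomial Finset

namespace Pool.Agent.SmK

section harm

variable (k : Type*) [Field k] [Finite k]

open Classical in
/-- the monic irreducible polynomials with degree in `E` -/
noncomputable def IrrE (E : Finset ℕ) : Finset k[X] := E.biUnion (Irr k)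

variable {k}

theorem mem_IrrE {E : Finset ℕ} {P : k[X]} :
    P ∈ IrrE k E ↔ P.Monic ∧ Irreducible P ∧ P.natDegree ∈ E := by
  classical
  unfold IrrE
  rw [mem_biUnion]
  constructor
  · rintro ⟨d, hd, hP⟩
    rw [mem_Irr] at hP
    exact ⟨hP.1, hP.2.2, hP.2.1 ▸ hd⟩
  · rintro ⟨h1, h2, h3⟩
    exact ⟨_, h3, mem_Irr.2 ⟨h1, rfl, h2⟩⟩

theorem sum_IrrE (E : Finset ℕ) :
    ∑ P ∈ IrrE k E, wt P = ∑ d ∈ E, (#(Irr k d) : ℝ) / (Nat.card k : ℝ) ^ d := by
  classical
  unfold IrrE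
  rw [sum_biUnion]
  · refine sum_congr rfl fun d _ => ?_
    rw [sum_congr rfl (g := fun _ => ((Nat.card k : ℝ) ^ d)⁻¹) fun P hP => by
      unfold wt
      rw [(mem_Irr.1 hP).2.1], sum_const, nsmul_eq_mul, div_eq_mul_inv]
  · intro d _ e _ hde
    rw [Function.onFun, disjoint_left]
    intro P hP hP'
    exact hde ((mem_Irr.1 hP).2.1.symm.trans (mem_Irr.1 hP').2.1)

theorem dens_le (d : ℕ) : (#(Irr k d) : ℝ) / (Nat.card k : ℝ) ^ d ≤ 1 / d := by
  rcases Nat.eq_zero_or_pos d with rfl | hd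
  · rw [Irr_zero]
    simp
  have hq := q_pos (k := k)
  have hd' : (0 : ℝ) < d := by exact_mod_cast hd
  rw [div_le_div_iff₀ (by positivity) hd', one_mul, mul_comm]
  exact_mod_cast mul_card_Irr_le k d

theorem le_dens (h3 : 3 ≤ Nat.card k) (d : ℕ) (hd : 3 ≤ d) :
    1 / (2 * (d : ℝ)) ≤ (#(Irr k d) : ℝ) / (Nat.card k : ℝ) ^ d := by
  have hq := q_pos (k := k)
  have hd' : (0 : ℝ) < d := by
    have : 0 < d := by omega
    exact_mod_cast this
  rw [div_le_div_iff₀ (by positivity) (by positivity), one_mul]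
  have h1 := card_pow_le k d (by omega)
  have h2 : 4 * Nat.card k ^ (d / 2) ≤ Nat.card k ^ d := by
    calc 4 * Nat.card k ^ (d / 2) ≤ Nat.card k ^ 2 * Nat.card k ^ (d / 2) := by
          refine Nat.mul_le_mul_right _ ?_
          nlinarith
      _ = Nat.card k ^ (2 + d / 2) := (pow_add _ _ _).symm
      _ ≤ _ := Nat.pow_le_pow_right (by omega) (by omega)
  have h4 : Nat.card k ^ d ≤ #(Irr k d) * (2 * d) := by nlinarith
  exact_mod_cast h4

theorem sum_IrrE_le (E : Finset ℕ) (N : ℕ) (hE : E ⊆ Icc 1 N) :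
    ∑ P ∈ IrrE k E, wt P ≤ 1 + Real.log N := by
  rw [sum_IrrE]
  have h1 : ∑ d ∈ E, (#(Irr k d) : ℝ) / (Nat.card k : ℝ) ^ d ≤ ∑ d ∈ Icc 1 N, (1 / d : ℝ) :=
    (sum_le_sum fun d _ => dens_le d).trans
      (sum_le_sum_of_subset_of_nonneg hE fun _ _ _ => by positivity)
  refine h1.trans ?_
  have h2 := harmonic_le_one_add_log N
  rw [harmonic_eq_sum_Icc] at h2
  push_cast at h2
  simpa only [one_div] using h2

theorem log_le_sum (a b : ℕ) (ha : 0 < a) (hab : a ≤ b) :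
    Real.log b - Real.log a ≤ ∑ j ∈ Ico a b, (1 / (j : ℝ)) := by
  induction b, hab using Nat.le_induction with
  | base => simp
  | succ b hab ih =>
    rw [sum_Ico_succ_top hab]
    have hb : (0 : ℝ) < b := by
      have : 0 < b := by omega
      exact_mod_cast this
    have h1 : Real.log ((b + 1 : ℕ) : ℝ) - Real.log b ≤ 1 / (b : ℝ) := by
      push_cast
      rw [← Real.log_div (by positivity) hb.ne']
      have h2 := Real.log_le_sub_one_of_pos (show (0 : ℝ) < (b + 1) / b by positivity)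
      refine h2.trans (le_of_eq ?_)
      field_simp
      ring
    linarith

/-- lower bound for a residue class of degrees -/
theorem le_sum_IrrE (h3 : 3 ≤ Nat.card k) (m r a b : ℕ) (hr : r < m) (ha : 3 ≤ a)
    (hab : a + 1 ≤ b / m + 1) (E : Finset ℕ)
    (hE : ∀ d, a ≤ d → d ≤ b → d % m = r → d ∈ E) :
    (Real.log ((b / m + 1 : ℕ) : ℝ) - Real.log ((a + 1 : ℕ) : ℝ)) / (2 * m) ≤
      ∑ P ∈ IrrE k E, wt P := by
  classical
  have hm : (0 : ℝ) < m := by
    have : 0 < m := by omega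
    exact_mod_cast this
  have hm1 : 0 < m := by omega
  rw [sum_IrrE]
  set J := Ico (a + 1) (b / m + 1) with hJ
  have h1 : (Real.log ((b / m + 1 : ℕ) : ℝ) - Real.log ((a + 1 : ℕ) : ℝ)) / (2 * m) ≤
      ∑ j ∈ J, 1 / (2 * ((m : ℝ) * j)) := by
    rw [div_le_iff₀ (by positivity), sum_mul]
    refine (log_le_sum (a + 1) (b / m + 1) (by omega) hab).trans (le_of_eq ?_)
    refine sum_congr rfl fun j hj => ?_
    have hj0 : (0 : ℝ) < j := by
      rw [hJ, mem_Ico] at hj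
      have : 0 < j := by omega
      exact_mod_cast this
    field_simp
  refine h1.trans ?_
  set φ : ℕ → ℕ := fun j => m * (j - 1) + r with hφ
  have hinj : Set.InjOn φ J := by
    intro i hi j hj hij
    rw [mem_coe, hJ, mem_Ico] at hi hj
    simp only [hφ, add_left_inj] at hij
    have := Nat.eq_of_mul_eq_mul_left hm1 hij
    omega
  have hmem : ∀ j ∈ J, a ≤ φ j ∧ φ j ≤ b ∧ φ j % m = r ∧ φ j ≤ m * j := by
    intro j hj
    rw [hJ, mem_Ico] at hj
    have h5 : m * (j - 1) + m = m * j := by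
      have : m * (j - 1) + m = m * (j - 1 + 1) := by ring
      rw [this]
      congr 1
      omega
    have h6 : m * j ≤ b := by
      have h7 : j ≤ b / m := by omega
      calc m * j ≤ m * (b / m) := Nat.mul_le_mul_left _ h7
        _ ≤ b := Nat.mul_div_le _ _
    have h8 : j - 1 ≤ m * (j - 1) := Nat.le_mul_of_pos_left _ hm1
    simp only [hφ]
    refine ⟨by omega, by omega, ?_, by omega⟩
    rw [Nat.mul_add_mod, Nat.mod_eq_of_lt hr]
  have h9 : ∑ j ∈ J, 1 / (2 * ((m : ℝ) * j)) ≤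
      ∑ j ∈ J, (#(Irr k (φ j)) : ℝ) / (Nat.card k : ℝ) ^ (φ j) := by
    refine sum_le_sum fun j hj => ?_
    obtain ⟨h10, h11, h12, h13⟩ := hmem j hj
    refine le_trans ?_ (le_dens h3 (φ j) (by omega))
    have h14 : (0 : ℝ) < φ j := by
      have : 0 < φ j := by omega
      exact_mod_cast this
    have h15 : (φ j : ℝ) ≤ m * j := by exact_mod_cast h13
    exact one_div_le_one_div_of_le (by positivity) (by linarith)
  refine h9.trans ?_
  rw [← sum_image (f := fun d => (#(Irr k d) : ℝ) / (Nat.card k : ℝ) ^ d) hinj]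
  refine sum_le_sum_of_subset_of_nonneg ?_ fun _ _ _ => by positivity
  intro d hd
  obtain ⟨j, hj, rfl⟩ := mem_image.1 hd
  obtain ⟨h10, h11, h12, _⟩ := hmem j hj
  exact hE _ h10 h11 h12

theorem sum_sq_le (a b : ℕ) (ha : 0 < a) : ∑ d ∈ Icc a b, (1 / (d : ℝ)) ^ 2 ≤ 2 / (a : ℝ) := by
  have h1 : ∀ b, a ≤ b → ∑ d ∈ Icc a b, (1 / (d : ℝ)) ^ 2 ≤ 2 / (a : ℝ) - 1 / (b : ℝ) := by
    intro b hab
    induction b, hab using Nat.le_induction with
    | base =>
      rw [Icc_self, sum_singleton]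
      have h2 : (1 : ℝ) ≤ a := by exact_mod_cast ha
      have h3 : (1 / (a : ℝ)) ^ 2 ≤ 1 / (a : ℝ) := by
        rw [sq]
        have h4 : (1 : ℝ) / a ≤ 1 := by rw [div_le_one (by linarith)]; exact h2
        have h5 : (0 : ℝ) ≤ 1 / a := by positivity
        nlinarith
      have h6 : (2 : ℝ) / a - 1 / a = 1 / a := by ring
      rw [h6]
      exact h3
    | succ b hab ih =>
      rw [sum_Icc_succ_top (by omega)]
      have hb : (0 : ℝ) < b := by
        have : 0 < b := by omega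
        exact_mod_cast this
      have h2 : (1 / ((b + 1 : ℕ) : ℝ)) ^ 2 ≤ 1 / (b : ℝ) - 1 / ((b + 1 : ℕ) : ℝ) := by
        push_cast
        rw [div_sub_div _ _ hb.ne' (by positivity), one_div, inv_pow, ← one_div,
          div_le_div_iff₀ (by positivity) (by positivity)]
        nlinarith
      linarith
  rcases le_or_gt a b with h | h
  · refine (h1 b h).trans ?_
    have : (0 : ℝ) ≤ 1 / (b : ℝ) := by positivity
    linarith
  · rw [Icc_eq_empty (by omega), sum_empty]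
    positivity

open Classical in
/-- few polynomials have two different prime factors of the same degree at least `N0` -/
theorem card_same_degree (n N0 : ℕ) (hN0 : 0 < N0) :
    (#{f ∈ Mon k n | ∃ P Q : k[X], (P.Monic ∧ Irreducible P ∧ P ∣ f) ∧
      (Q.Monic ∧ Irreducible Q ∧ Q ∣ f) ∧ P ≠ Q ∧ N0 ≤ P.natDegree ∧
      P.natDegree = Q.natDegree} : ℝ) ≤ (Nat.card k : ℝ) ^ n * (2 / N0) := by
  have hq := q_pos (k := k)
  set S := {f ∈ Mon k n | ∃ P Q : k[X], (P.Monic ∧ Irreducible P ∧ P ∣ f) ∧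
      (Q.Monic ∧ Irreducible Q ∧ Q ∣ f) ∧ P ≠ Q ∧ N0 ≤ P.natDegree ∧
      P.natDegree = Q.natDegree} with hS
  have h1 : S ⊆ (Icc N0 n).biUnion (fun d => (Irr k d ×ˢ Irr k d).biUnion
      (fun p => if p.1 = p.2 then ∅ else {f ∈ Mon k n | p.1 * p.2 ∣ f})) := by
    intro f hf
    rw [hS, mem_filter] at hf
    obtain ⟨hf1, P, Q, ⟨hP1, hP2, hP3⟩, ⟨hQ1, hQ2, hQ3⟩, hPQ, hN, hdeg⟩ := hf
    rw [mem_biUnion]
    refine ⟨P.natDegree, ?_, ?_⟩
    · rw [mem_Icc]
      refine ⟨hN, ?_⟩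
      rw [← (mem_Mon.1 hf1).2]
      exact natDegree_le_of_dvd hP3 (mem_Mon.1 hf1).1.ne_zero
    · rw [mem_biUnion]
      refine ⟨(P, Q), mem_product.2 ⟨mem_Irr.2 ⟨hP1, rfl, hP2⟩,
        mem_Irr.2 ⟨hQ1, hdeg.symm, hQ2⟩⟩, ?_⟩
      rw [if_neg hPQ, mem_filter]
      exact ⟨hf1, (coprime_of_ne ⟨hP1, hP2⟩ ⟨hQ1, hQ2⟩ hPQ).mul_dvd hP3 hQ3⟩
  have h2 : (#S : ℝ) ≤ ∑ d ∈ Icc N0 n, ∑ p ∈ Irr k d ×ˢ Irr k d,
      (Nat.card k : ℝ) ^ n * (wt p.1 * wt p.2) := by
    have h3 : (#S : ℝ) ≤ ∑ d ∈ Icc N0 n, ∑ p ∈ Irr k d ×ˢ Irr k d,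
        (#(if p.1 = p.2 then ∅ else {f ∈ Mon k n | p.1 * p.2 ∣ f}) : ℝ) := by
      have h4 := (card_le_card h1).trans (card_biUnion_le.trans
        (sum_le_sum fun d _ => card_biUnion_le))
      exact_mod_cast h4
    refine h3.trans (sum_le_sum fun d _ => sum_le_sum fun p hp => ?_)
    rw [mem_product] at hp
    have hp1 := mem_Irr.1 hp.1
    have hp2 := mem_Irr.1 hp.2
    split_ifs with h
    · rw [card_empty, Nat.cast_zero]
      have := wt_nonneg p.1
      have := wt_nonneg p.2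
      positivity
    · rw [← wt_mul hp1.1 hp2.1]
      exact card_dvd_le (hp1.1.mul hp2.1) n
  refine h2.trans ?_
  have h5 : ∀ d ∈ Icc N0 n, ∑ p ∈ Irr k d ×ˢ Irr k d, (Nat.card k : ℝ) ^ n * (wt p.1 * wt p.2) ≤
      (Nat.card k : ℝ) ^ n * (1 / (d : ℝ)) ^ 2 := by
    intro d _
    rw [← mul_sum]
    refine mul_le_mul_of_nonneg_left ?_ (by positivity)
    rw [sum_product, sq, ← sum_mul_sum]
    have h6 : ∑ P ∈ Irr k d, wt P ≤ 1 / d := by
      have h7 : ∑ P ∈ Irr k d, wt P = (#(Irr k d) : ℝ) / (Nat.card k : ℝ) ^ d := by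
        rw [sum_congr rfl (g := fun _ => ((Nat.card k : ℝ) ^ d)⁻¹) fun P hP => by
          unfold wt
          rw [(mem_Irr.1 hP).2.1], sum_const, nsmul_eq_mul, div_eq_mul_inv]
      rw [h7]
      exact dens_le d
    have h8 : 0 ≤ ∑ P ∈ Irr k d, wt P := sum_nonneg fun P _ => wt_nonneg P
    exact mul_le_mul h6 h6 h8 (by positivity)
  refine (sum_le_sum h5).trans ?_
  rw [← mul_sum]
  exact mul_le_mul_of_nonneg_left (sum_sq_le N0 n hN0) (by positivity)

end harm

end Pool.Agent.SmK
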