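import Pool.Agent.Lib.SmK.DD
import Pool.Agent.Lib.SmK.Harm
import Pool.Agent.Lib.SmK.Asy
import Pool.Agent.Lib.BSDP.R.Defs

/-!
SMITH over F_q(t), block K (anatomy), part 6: almost all monic squarefree polynomials are nice.
-/

set_option autoImplicit false

open Polynomial Finset

namespace Pool.Agent.SmK

open Pool.Agent.BSDP.R (primesOf)

variable {k : Type} [Field k]

theorem mem_primesOf {D P : k[X]} (hD : D ≠ 0) :
    P ∈ primesOf D ↔ P.Monic ∧ Irreducible P ∧ P ∣ D := by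
  classical
  unfold primesOf
  rw [Multiset.mem_toFinset, UniqueFactorizationMonoid.mem_normalizedFactors_iff' hD]
  constructor
  · rintro ⟨h1, h2, h3⟩
    refine ⟨?_, h1, h3⟩
    rw [← h2]
    exact monic_normalize h1.ne_zero
  · rintro ⟨h1, h2, h3⟩
    exact ⟨h2, h1.normalize_eq_self, h3⟩

/-- `D` (of degree `n`) is nice -/
structure Nice (m N0 n : ℕ) (D : k[X]) : Prop where
  /-- the prime factors of degree at least `N0` have distinct degrees -/
  distinct : ∀ P ∈ primesOf D, ∀ Q ∈ primesOf D, N0 ≤ P.natDegree →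
    P.natDegree = Q.natDegree → P = Q
  /-- few prime factors -/
  few : (#(primesOf D) : ℝ) ≤ 2 * Real.log n
  /-- few small prime factors -/
  fewSmall : (#{P ∈ primesOf D | P.natDegree < N0} : ℝ) ≤ 6 * Real.log (Real.log n)
  /-- many large prime factors with degree divisible by `m` -/
  many : Real.log n / (8 * m) ≤ #{P ∈ primesOf D | N0 ≤ P.natDegree ∧ m ∣ P.natDegree}
  /-- some prime factor has odd degree -/
  odd : ∃ P ∈ primesOf D, Odd P.natDegree

variable [Finite k]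

theorem om_IrrE {D : k[X]} (hD : D ≠ 0) (E : Finset ℕ) :
    om (IrrE k E) D = #{P ∈ primesOf D | P.natDegree ∈ E} := by
  classical
  unfold om
  congr 1
  ext P
  rw [mem_filter, mem_filter, mem_IrrE, mem_primesOf hD]
  tauto

theorem anatomy (h3 : 3 ≤ Nat.card k) (B : Finset k[X]) (hB : ∀ P ∈ B, P.Monic ∧ Irreducible P)
    (m : ℕ) (hm : 0 < m) (ε : ℝ) (hε : 0 < ε) : ∃ n0 : ℕ, ∀ n : ℕ, n0 ≤ n →
      (Nat.card {D : k[X] // D ∈ DD B n ∧ ¬ Nice m ⌊Real.log n ^ 3⌋₊ n D} : ℝ) ≤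
        ε * #(DD B n) := by
  classical
  obtain ⟨c, hc, n1, hn1⟩ := card_DD_ge B hB h3
  set η : ℝ := ε * c / 5 with hη
  have hη0 : 0 < η := by positivity
  obtain ⟨n2, hn2⟩ := asy m hm η hη0
  obtain ⟨n3, hn3⟩ := asy 2 (by norm_num) η hη0
  refine ⟨max n1 (max n2 (max n3 2)), fun n hn => ?_⟩
  have hn1' := hn1 n (by omega)
  obtain ⟨a1, a2, a3, a4, a5, a6, a7, a8⟩ := hn2 n (by omega)
  obtain ⟨_, _, _, _, b5, b6, b7, _⟩ := hn3 n (by omega)
  have hn2' : 2 ≤ n := by omega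
  set N0 := ⌊Real.log n ^ 3⌋₊ with hN0
  have hq := q_pos (k := k)
  set Q : ℝ := (Nat.card k : ℝ) ^ n with hQ
  have hQ0 : 0 < Q := by positivity
  have hirr : ∀ E : Finset ℕ, ∀ P ∈ IrrE k E, P.Monic ∧ Irreducible P := by
    intro E P hP
    rw [mem_IrrE] at hP
    exact ⟨hP.1, hP.2.1⟩
  -- the exceptional sets
  set E1 : Finset k[X] := {f ∈ Mon k n | ∃ P Q : k[X], (P.Monic ∧ Irreducible P ∧ P ∣ f) ∧
      (Q.Monic ∧ Irreducible Q ∧ Q ∣ f) ∧ P ≠ Q ∧ N0 ≤ P.natDegree ∧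
      P.natDegree = Q.natDegree} with hE1
  set E2 : Finset k[X] := {f ∈ Mon k n | 2 * Real.log n ≤ om (IrrE k (Icc 1 n)) f} with hE2
  set E3 : Finset k[X] := {f ∈ Mon k n | 6 * Real.log (Real.log n) ≤
    om (IrrE k (Ico 1 N0)) f} with hE3
  set E4 : Finset k[X] := {f ∈ Mon k n | 2 * (om (IrrE k {d ∈ Icc N0 (n / 2) | m ∣ d}) f : ℝ) ≤
    ∑ P ∈ IrrE k {d ∈ Icc N0 (n / 2) | m ∣ d}, wt P} with hE4
  set E5 : Finset k[X] := {f ∈ Mon k n | 2 * (om (IrrE k {d ∈ Icc N0 (n / 2) | Odd d}) f : ℝ) ≤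
    ∑ P ∈ IrrE k {d ∈ Icc N0 (n / 2) | Odd d}, wt P} with hE5
  have c1 : (#E1 : ℝ) ≤ η * Q := by
    refine (card_same_degree n N0 (by omega)).trans ?_
    rw [mul_comm]
    exact mul_le_mul_of_nonneg_right a2 hQ0.le
  have c2 : (#E2 : ℝ) ≤ η * Q := by
    have h1 := card_om_ge (IrrE k (Icc 1 n)) (hirr _) n (2 * Real.log n)
    have h2 : Real.exp (∑ P ∈ IrrE k (Icc 1 n), wt P) ≤ η * (2 : ℝ) ^ (2 * Real.log n) :=
      (Real.exp_le_exp.2 (sum_IrrE_le (Icc 1 n) n le_rfl)).trans a3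
    have h4 : (0 : ℝ) < (2 : ℝ) ^ (2 * Real.log n) := by positivity
    have h5 : (2 : ℝ) ^ (2 * Real.log n) * #E2 ≤ (2 : ℝ) ^ (2 * Real.log n) * (η * Q) := by
      calc (2 : ℝ) ^ (2 * Real.log n) * #E2 ≤ Q * Real.exp (∑ P ∈ IrrE k (Icc 1 n), wt P) := h1
        _ ≤ Q * (η * (2 : ℝ) ^ (2 * Real.log n)) := mul_le_mul_of_nonneg_left h2 hQ0.le
        _ = _ := by ring
    exact le_of_mul_le_mul_left h5 h4
  have c3 : (#E3 : ℝ) ≤ η * Q := by
    have h1 := card_om_ge (IrrE k (Ico 1 N0)) (hirr _) n (6 * Real.log (Real.log n))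
    have h2 : Real.exp (∑ P ∈ IrrE k (Ico 1 N0), wt P) ≤
        η * (2 : ℝ) ^ (6 * Real.log (Real.log n)) :=
      (Real.exp_le_exp.2 (sum_IrrE_le (Ico 1 N0) N0 (fun d hd => by
        rw [mem_Ico] at hd
        rw [mem_Icc]
        omega))).trans a4
    have h4 : (0 : ℝ) < (2 : ℝ) ^ (6 * Real.log (Real.log n)) := by positivity
    have h5 : (2 : ℝ) ^ (6 * Real.log (Real.log n)) * #E3 ≤
        (2 : ℝ) ^ (6 * Real.log (Real.log n)) * (η * Q) := by
      calc (2 : ℝ) ^ (6 * Real.log (Real.log n)) * #E3 ≤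
            Q * Real.exp (∑ P ∈ IrrE k (Ico 1 N0), wt P) := h1
        _ ≤ Q * (η * (2 : ℝ) ^ (6 * Real.log (Real.log n))) :=
            mul_le_mul_of_nonneg_left h2 hQ0.le
        _ = _ := by ring
    exact le_of_mul_le_mul_left h5 h4
  have hdeg : ∀ (p : ℕ → Prop) [DecidablePred p], ∀ P ∈ IrrE k {d ∈ Icc N0 (n / 2) | p d},
      P.natDegree ≤ n := by
    intro p _ P hP
    rw [mem_IrrE, mem_filter, mem_Icc] at hP
    omega
  -- lower bounds for the means
  have l4 : Real.log n / (4 * m) ≤ ∑ P ∈ IrrE k {d ∈ Icc N0 (n / 2) | m ∣ d}, wt P := by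
    have h1 := le_sum_IrrE h3 m 0 N0 (n / 2) hm a1 a5 {d ∈ Icc N0 (n / 2) | m ∣ d}
      (fun d h1 h2 h4 => mem_filter.2 ⟨mem_Icc.2 ⟨h1, h2⟩, Nat.dvd_of_mod_eq_zero h4⟩)
    refine le_trans ?_ h1
    have hm' : (0 : ℝ) < m := by exact_mod_cast hm
    rw [div_le_div_iff₀ (by positivity) (by positivity)]
    nlinarith
  have l5 : Real.log n / 8 ≤ ∑ P ∈ IrrE k {d ∈ Icc N0 (n / 2) | Odd d}, wt P := by
    have h1 := le_sum_IrrE h3 2 1 N0 (n / 2) (by norm_num) a1 b5 {d ∈ Icc N0 (n / 2) | Odd d}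
      (fun d h1 h2 h4 => mem_filter.2 ⟨mem_Icc.2 ⟨h1, h2⟩, Nat.odd_iff.2 h4⟩)
    refine le_trans ?_ h1
    push_cast at b6 ⊢
    rw [div_le_div_iff₀ (by norm_num) (by norm_num)]
    linarith
  have c4 : (#E4 : ℝ) ≤ η * Q := by
    have h1 := card_om_le (IrrE k {d ∈ Icc N0 (n / 2) | m ∣ d}) (hirr _) n (hdeg _)
    have hm' : (0 : ℝ) < m := by exact_mod_cast hm
    have h2 : Real.log n / (4 * m) * #E4 ≤ 4 * Q :=
      (mul_le_mul_of_nonneg_right l4 (Nat.cast_nonneg _)).trans h1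
    rw [div_mul_eq_mul_div, div_le_iff₀ (by positivity)] at h2
    have h4 : (#E4 : ℝ) * Real.log n ≤ (η * Q) * Real.log n := by nlinarith
    exact le_of_mul_le_mul_right h4 (by linarith)
  have c5 : (#E5 : ℝ) ≤ η * Q := by
    have h1 := card_om_le (IrrE k {d ∈ Icc N0 (n / 2) | Odd d}) (hirr _) n (hdeg _)
    have h2 : Real.log n / 8 * #E5 ≤ 4 * Q :=
      (mul_le_mul_of_nonneg_right l5 (Nat.cast_nonneg _)).trans h1
    push_cast at b7
    have h4 : (#E5 : ℝ) * Real.log n ≤ (η * Q) * Real.log n := by nlinarith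
    exact le_of_mul_le_mul_right h4 (by linarith)
  have hsub : ∀ D : k[X], (D ∈ DD B n ∧ ¬ Nice m N0 n D) →
      D ∈ E1 ∪ (E2 ∪ (E3 ∪ (E4 ∪ E5))) := by
    rintro D ⟨hD, hnice⟩
    by_contra hcon
    simp only [mem_union, not_or] at hcon
    obtain ⟨d1, d2, d3, d4, d5⟩ := hcon
    have hDM : D ∈ Mon k n := DD_subset B n hD
    have hDm := mem_Mon.1 hDM
    have hD0 : D ≠ 0 := hDm.1.ne_zero
    have hle : ∀ P ∈ primesOf D, 1 ≤ P.natDegree ∧ P.natDegree ≤ n := by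
      intro P hP
      rw [mem_primesOf hD0] at hP
      refine ⟨hP.2.1.natDegree_pos, ?_⟩
      rw [← hDm.2]
      exact natDegree_le_of_dvd hP.2.2 hD0
    apply hnice
    constructor
    · intro P hP P' hP' hN hdd
      by_contra hne
      apply d1
      rw [hE1, mem_filter]
      exact ⟨hDM, P, P', (mem_primesOf hD0).1 hP, (mem_primesOf hD0).1 hP', hne, hN, hdd⟩
    · rw [hE2, mem_filter, not_and, not_le] at d2
      have h1 := d2 hDM
      rw [om_IrrE hD0] at h1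
      have h2 : {P ∈ primesOf D | P.natDegree ∈ Icc 1 n} = primesOf D := by
        refine filter_true_of_mem fun P hP => ?_
        rw [mem_Icc]
        exact hle P hP
      rw [h2] at h1
      exact h1.le
    · rw [hE3, mem_filter, not_and, not_le] at d3
      have h1 := d3 hDM
      rw [om_IrrE hD0] at h1
      have h2 : {P ∈ primesOf D | P.natDegree ∈ Ico 1 N0} =
          {P ∈ primesOf D | P.natDegree < N0} := by
        refine filter_congr fun P hP => ?_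
        rw [mem_Ico]
        have := (hle P hP).1
        omega
      rw [h2] at h1
      exact h1.le
    · rw [hE4, mem_filter, not_and, not_le] at d4
      have h1 := d4 hDM
      rw [om_IrrE hD0] at h1
      have h2 : {P ∈ primesOf D | P.natDegree ∈ ({d ∈ Icc N0 (n / 2) | m ∣ d} : Finset ℕ)} ⊆
          {P ∈ primesOf D | N0 ≤ P.natDegree ∧ m ∣ P.natDegree} := by
        intro P hP
        rw [mem_filter, mem_filter, mem_Icc] at hP
        rw [mem_filter]
        exact ⟨hP.1, hP.2.1.1, hP.2.2⟩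
      have h4 : (#{P ∈ primesOf D | P.natDegree ∈ ({d ∈ Icc N0 (n / 2) | m ∣ d} : Finset ℕ)} :
          ℝ) ≤ #{P ∈ primesOf D | N0 ≤ P.natDegree ∧ m ∣ P.natDegree} := by
        exact_mod_cast card_le_card h2
      have h5 : Real.log n / (8 * m) * 2 = Real.log n / (4 * m) := by
        have hm' : (0 : ℝ) < m := by exact_mod_cast hm
        field_simp
        norm_num
      linarith
    · rw [hE5, mem_filter, not_and, not_le] at d5
      have h1 := d5 hDM
      rw [om_IrrE hD0] at h1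
      have h2 : 0 < #{P ∈ primesOf D | P.natDegree ∈ ({d ∈ Icc N0 (n / 2) | Odd d} :
          Finset ℕ)} := by
        rw [Nat.pos_iff_ne_zero]
        intro h0
        rw [h0, Nat.cast_zero, mul_zero] at h1
        have h4 : 0 ≤ Real.log n / 8 := by linarith
        linarith
      obtain ⟨P, hP⟩ := card_pos.1 h2
      rw [mem_filter, mem_filter] at hP
      exact ⟨P, hP.1, hP.2.2⟩
  have hcard : Nat.card {D : k[X] // D ∈ DD B n ∧ ¬ Nice m N0 n D} ≤
      #(E1 ∪ (E2 ∪ (E3 ∪ (E4 ∪ E5)))) := by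
    have h1 : Nat.card {D : k[X] // D ∈ E1 ∪ (E2 ∪ (E3 ∪ (E4 ∪ E5)))} =
        #(E1 ∪ (E2 ∪ (E3 ∪ (E4 ∪ E5)))) := by
      rw [Nat.card_eq_fintype_card, Fintype.card_coe]
    rw [← h1]
    exact Nat.card_le_card_of_injective (fun D => ⟨D.1, hsub D.1 D.2⟩) (fun D D' h => by
      have h2 := congrArg Subtype.val h
      exact Subtype.ext h2)
  have hunion : #(E1 ∪ (E2 ∪ (E3 ∪ (E4 ∪ E5)))) ≤ #E1 + (#E2 + (#E3 + (#E4 + #E5))) := by
    refine (card_union_le _ _).trans (Nat.add_le_add_left ?_ _)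
    refine (card_union_le _ _).trans (Nat.add_le_add_left ?_ _)
    refine (card_union_le _ _).trans (Nat.add_le_add_left ?_ _)
    exact card_union_le _ _
  have hfin : (Nat.card {D : k[X] // D ∈ DD B n ∧ ¬ Nice m N0 n D} : ℝ) ≤
      #E1 + (#E2 + (#E3 + (#E4 + #E5))) := by
    exact_mod_cast hcard.trans hunion
  calc (Nat.card {D : k[X] // D ∈ DD B n ∧ ¬ Nice m N0 n D} : ℝ)
      ≤ #E1 + (#E2 + (#E3 + (#E4 + #E5))) := hfin
    _ ≤ 5 * (η * Q) := by linarith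
    _ = ε * (c * Q) := by rw [hη]; ring
    _ ≤ _ := mul_le_mul_of_nonneg_left hn1' hε.le

end Pool.Agent.SmK
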