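import Mathlib

/-!
SMITH over F_q(t), block K (anatomy), part 1: monic polynomials and monic irreducible
polynomials over a finite field.
-/

set_option autoImplicit false

open Polynomial Finset

namespace Pool.Agent.SmK

section count

variable (k : Type*) [Field k] [Finite k]

omit [Finite k] in
theorem card_monic_eq (n : ℕ) :
    Nat.card {f : k[X] // f.Monic ∧ f.natDegree = n} = Nat.card k ^ n := by
  rw [Nat.card_congr ((monicEquivDegreeLT n).trans (degreeLTEquiv k n).toEquiv),
    Nat.card_fun, Nat.card_fin]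

theorem finite_monic (n : ℕ) : {f : k[X] | f.Monic ∧ f.natDegree = n}.Finite := by
  have h1 : 0 < Nat.card {f : k[X] // f.Monic ∧ f.natDegree = n} := by
    rw [card_monic_eq]
    exact pow_pos Nat.card_pos _
  exact Set.finite_coe_iff.1 (Nat.finite_of_card_ne_zero h1.ne')

/-- monic polynomials of degree `n` -/
noncomputable def Mon (n : ℕ) : Finset k[X] := (finite_monic k n).toFinset

open Classical in
/-- monic irreducible polynomials of degree `n` -/
noncomputable def Irr (n : ℕ) : Finset k[X] := {P ∈ Mon k n | Irreducible P}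

variable {k}

theorem mem_Mon {n : ℕ} {f : k[X]} : f ∈ Mon k n ↔ f.Monic ∧ f.natDegree = n := by
  unfold Mon
  rw [Set.Finite.mem_toFinset]
  rfl

theorem mem_Irr {n : ℕ} {f : k[X]} :
    f ∈ Irr k n ↔ f.Monic ∧ f.natDegree = n ∧ Irreducible f := by
  classical
  unfold Irr
  rw [mem_filter, mem_Mon, and_assoc]

variable (k)

theorem card_Mon (n : ℕ) : #(Mon k n) = Nat.card k ^ n := by
  rw [← card_monic_eq k n]
  have h1 : #(Mon k n) = Nat.card {f : k[X] // f ∈ Mon k n} := by
    rw [Nat.card_eq_fintype_card, Fintype.card_coe]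
  rw [h1]
  exact Nat.card_congr (Equiv.subtypeEquivRight fun f => mem_Mon)

theorem Irr_zero : Irr k 0 = ∅ := by
  ext f
  rw [mem_Irr]
  simp only [notMem_empty, iff_false, not_and]
  intro hf h0 hi
  have h1 : f = 1 := eq_one_of_monic_natDegree_zero hf h0
  exact hi.not_isUnit (h1 ▸ isUnit_one)

open Classical in
/-- the number of monic multiples of degree `n` of a monic polynomial -/
theorem card_dvd {g : k[X]} (hg : g.Monic) (n : ℕ) :
    #{f ∈ Mon k n | g ∣ f} = if g.natDegree ≤ n then Nat.card k ^ (n - g.natDegree) else 0 := by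
  split_ifs with h
  · rw [← card_Mon k (n - g.natDegree)]
    symm
    refine card_bij (fun f _ => g * f) ?_ ?_ ?_
    · intro f hf
      rw [mem_Mon] at hf
      rw [mem_filter, mem_Mon]
      refine ⟨⟨hg.mul hf.1, ?_⟩, dvd_mul_right _ _⟩
      rw [hg.natDegree_mul hf.1, hf.2]
      omega
    · intro f _ f' _ hff
      exact mul_left_cancel₀ hg.ne_zero hff
    · intro f hf
      rw [mem_filter, mem_Mon] at hf
      obtain ⟨⟨hf1, hf2⟩, e, rfl⟩ := hf
      have he : e.Monic := hg.of_mul_monic_left hf1
      rw [hg.natDegree_mul he] at hf2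
      exact ⟨e, mem_Mon.2 ⟨he, by omega⟩, rfl⟩
  · rw [card_eq_zero, filter_eq_empty_iff]
    intro f hf hd
    rw [mem_Mon] at hf
    have := natDegree_le_of_dvd hd hf.1.ne_zero
    omega

open Classical in
theorem sum_divisors_Irr (n : ℕ) (hn : n ≠ 0) :
    ∑ d ∈ n.divisors, d * #(Irr k d) = Nat.card k ^ n := by
  obtain ⟨p, hp⟩ := CharP.exists k
  have hpp : Fact (Nat.Prime p) := ⟨CharP.char_is_prime k p⟩
  set q := Nat.card k with hq
  have hq1 : 1 < q := Finite.one_lt_card
  set F : k[X] := X ^ q ^ n - X with hF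
  have hF0 : F ≠ 0 := FiniteField.X_pow_card_pow_sub_X_ne_zero _ hn hq1
  have hFdeg : F.natDegree = q ^ n := FiniteField.X_pow_card_pow_sub_X_natDegree_eq _ hn hq1
  have hFm : F.Monic := by
    rw [hF]
    refine monic_X_pow_sub ?_
    rw [degree_X]
    exact_mod_cast Nat.one_lt_pow hn hq1
  have hsep : F.Separable := by
    refine galois_poly_separable p _ ?_
    have h1 : p ∣ q := by
      have := Fintype.ofFinite k
      rw [hq, Nat.card_eq_fintype_card]
      obtain ⟨m, hm, hm2⟩ := FiniteField.card k p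
      rw [hm2]
      exact dvd_pow_self _ m.ne_zero
    exact h1.trans (dvd_pow_self _ hn)
  have hsq : Squarefree F := hsep.squarefree
  have hnod := (UniqueFactorizationMonoid.squarefree_iff_nodup_normalizedFactors hF0).1 hsq
  have hprod : (UniqueFactorizationMonoid.normalizedFactors F).prod = F := by
    rw [UniqueFactorizationMonoid.prod_normalizedFactors_eq hF0, hFm.normalize_eq_self]
  have hset : (UniqueFactorizationMonoid.normalizedFactors F).toFinset =
      n.divisors.biUnion (fun d => Irr k d) := by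
    ext P
    rw [Multiset.mem_toFinset, mem_biUnion]
    constructor
    · intro hP
      have hi := UniqueFactorizationMonoid.irreducible_of_normalized_factor P hP
      have hd := UniqueFactorizationMonoid.dvd_of_mem_normalizedFactors hP
      have hnorm := UniqueFactorizationMonoid.normalize_normalized_factor P hP
      have hm : P.Monic := by
        rw [← hnorm]
        exact monic_normalize hi.ne_zero
      refine ⟨P.natDegree, ?_, mem_Irr.2 ⟨hm, rfl, hi⟩⟩
      rw [Nat.mem_divisors]
      exact ⟨hi.natDegree_dvd_of_dvd_X_pow_card_pow_sub_X hd, hn⟩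
    · rintro ⟨d, hd, hP⟩
      rw [mem_Irr] at hP
      rw [Nat.mem_divisors] at hd
      have h1 : P ∣ F := by
        rw [hF, hq]
        refine (Irreducible.natDegree_dvd_iff_dvd_X_pow_card_pow_sub_X hP.2.2).1 ?_
        rw [hP.2.1]
        exact hd.1
      rw [UniqueFactorizationMonoid.mem_normalizedFactors_iff' hF0]
      exact ⟨hP.2.2, hP.1.normalize_eq_self, h1⟩
  have h2 : F = ∏ P ∈ n.divisors.biUnion (fun d => Irr k d), P := by
    rw [← hset, Finset.prod, Multiset.toFinset_val, Multiset.dedup_eq_self.2 hnod,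
      Multiset.map_id', hprod]
  have h3 := congrArg natDegree h2
  rw [hFdeg, natDegree_prod_of_monic _ _ (fun P hP => by
    obtain ⟨d, _, hd⟩ := mem_biUnion.1 hP
    exact (mem_Irr.1 hd).1), sum_biUnion] at h3
  · rw [h3]
    refine sum_congr rfl fun d _ => ?_
    rw [sum_congr rfl (g := fun _ => d) fun P hP => (mem_Irr.1 hP).2.1, sum_const, smul_eq_mul,
      mul_comm]
  · intro d _ e _ hde
    rw [Function.onFun, disjoint_left]
    intro P hP hP'
    exact hde ((mem_Irr.1 hP).2.1.symm.trans (mem_Irr.1 hP').2.1)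

/-- upper bound -/
theorem mul_card_Irr_le (n : ℕ) : n * #(Irr k n) ≤ Nat.card k ^ n := by
  rcases eq_or_ne n 0 with rfl | hn
  · simp
  rw [← sum_divisors_Irr k n hn]
  exact single_le_sum (f := fun d => d * #(Irr k d)) (fun _ _ => Nat.zero_le _)
    (Nat.mem_divisors_self n hn)

theorem sum_pow_le (q : ℕ) (hq : 2 ≤ q) (m : ℕ) : ∑ d ∈ Icc 1 m, q ^ d ≤ 2 * q ^ m := by
  induction m with
  | zero => simp
  | succ m ih =>
    rw [sum_Icc_succ_top (by omega)]
    have : 2 * q ^ m ≤ q ^ (m + 1) := by
      rw [pow_succ, mul_comm]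
      exact Nat.mul_le_mul_left _ hq
    omega

/-- lower bound -/
theorem card_pow_le (n : ℕ) (hn : n ≠ 0) :
    Nat.card k ^ n ≤ n * #(Irr k n) + 2 * Nat.card k ^ (n / 2) := by
  classical
  rw [← sum_divisors_Irr k n hn, ← Nat.cons_self_properDivisors hn, sum_cons]
  refine Nat.add_le_add_left ?_ _
  have h1 : ∑ d ∈ n.properDivisors, d * #(Irr k d) ≤ ∑ d ∈ n.properDivisors, Nat.card k ^ d :=
    sum_le_sum fun d _ => mul_card_Irr_le k d
  refine h1.trans (le_trans ?_ (sum_pow_le (Nat.card k) Finite.one_lt_card (n / 2)))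
  refine sum_le_sum_of_subset ?_
  intro d hd
  rw [Nat.mem_properDivisors] at hd
  rw [mem_Icc]
  obtain ⟨⟨c, hc⟩, hd2⟩ := hd
  have hd0 : 1 ≤ d := by
    rcases Nat.eq_zero_or_pos d with h | h
    · rw [h, zero_mul] at hc
      exact absurd hc hn
    · exact h
  have hc2 : 2 ≤ c := by
    by_contra hcon
    have : c = 0 ∨ c = 1 := by omega
    rcases this with h | h
    · rw [h, mul_zero] at hc
      exact hn hc
    · rw [h, mul_one] at hc
      omega
  refine ⟨hd0, ?_⟩
  rw [Nat.le_div_iff_mul_le (by norm_num), hc]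
  exact Nat.mul_le_mul_left _ hc2

end count

end Pool.Agent.SmK
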