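import Pool.Agent.Lib.SmK.Count

/-!
SMITH over F_q(t), block K (anatomy), part 3: moments of the number of prime factors in a finite set
`S` of monic irreducible polynomials over the monic polynomials of degree `n`.
-/

set_option autoImplicit false

open Polynomial Finset

namespace Pool.Agent.SmK

section mom

variable {k : Type*} [Field k]

open Classical in
/-- the number of elements of `S` which divide `f` -/
noncomputable def om (S : Finset k[X]) (f : k[X]) : ℕ := #{P ∈ S | P ∣ f}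

/-- the weight `q ^ (-deg P)` -/
noncomputable def wt (P : k[X]) : ℝ := ((Nat.card k : ℝ) ^ P.natDegree)⁻¹

theorem coprime_of_ne {P Q : k[X]} (hP : P.Monic ∧ Irreducible P) (hQ : Q.Monic ∧ Irreducible Q)
    (h : P ≠ Q) : IsCoprime P Q := by
  rw [hP.2.coprime_iff_not_dvd]
  intro hd
  exact h (eq_of_monic_of_associated hP.1 hQ.1 (hP.2.associated_of_dvd hQ.2 hd))

theorem prod_dvd_iff {T : Finset k[X]} (hT : ∀ P ∈ T, P.Monic ∧ Irreducible P) (f : k[X]) :
    (∏ P ∈ T, P) ∣ f ↔ ∀ P ∈ T, P ∣ f := by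
  constructor
  · intro h P hP
    exact (dvd_prod_of_mem (fun P => P) hP).trans h
  · intro h
    refine Finset.prod_dvd_of_coprime ?_ h
    intro P hP Q hQ hPQ
    exact coprime_of_ne (hT P hP) (hT Q hQ) hPQ

variable [Finite k]

omit [Finite k] in
theorem wt_nonneg (P : k[X]) : 0 ≤ wt P := by
  unfold wt
  positivity

theorem q_pos : (0 : ℝ) < Nat.card k := by
  exact_mod_cast (Nat.card_pos (α := k))

omit [Finite k] in
theorem wt_mul {P Q : k[X]} (hP : P.Monic) (hQ : Q.Monic) : wt (P * Q) = wt P * wt Q := by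
  unfold wt
  rw [hP.natDegree_mul hQ, pow_add, mul_inv]

omit [Finite k] in
theorem wt_prod (T : Finset k[X]) (hT : ∀ P ∈ T, P.Monic) : wt (∏ P ∈ T, P) = ∏ P ∈ T, wt P := by
  classical
  unfold wt
  rw [natDegree_prod_of_monic _ _ hT, ← prod_pow_eq_pow_sum, prod_inv_distrib]

open Classical in
theorem card_dvd_le {g : k[X]} (hg : g.Monic) (n : ℕ) :
    (#{f ∈ Mon k n | g ∣ f} : ℝ) ≤ (Nat.card k : ℝ) ^ n * wt g := by
  have hq := q_pos (k := k)
  rw [card_dvd k hg n]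
  unfold wt
  split_ifs with h
  · push_cast
    rw [pow_sub₀ _ hq.ne' h]
  · push_cast
    positivity

open Classical in
theorem card_dvd_eq {g : k[X]} (hg : g.Monic) (n : ℕ) (h : g.natDegree ≤ n) :
    (#{f ∈ Mon k n | g ∣ f} : ℝ) = (Nat.card k : ℝ) ^ n * wt g := by
  have hq := q_pos (k := k)
  rw [card_dvd k hg n, if_pos h]
  unfold wt
  push_cast
  rw [pow_sub₀ _ hq.ne' h]

/-- exponential moment -/
theorem sum_two_pow_om (S : Finset k[X]) (hS : ∀ P ∈ S, P.Monic ∧ Irreducible P) (n : ℕ) :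
    ∑ f ∈ Mon k n, (2 : ℝ) ^ om S f ≤ (Nat.card k : ℝ) ^ n * ∏ P ∈ S, (1 + wt P) := by
  classical
  have h1 : ∀ f ∈ Mon k n, (2 : ℝ) ^ om S f =
      ∑ T ∈ S.powerset, if (∏ P ∈ T, P) ∣ f then (1 : ℝ) else 0 := by
    intro f _
    rw [sum_boole]
    have h2 : {T ∈ S.powerset | (∏ P ∈ T, P) ∣ f} = ({P ∈ S | P ∣ f} : Finset k[X]).powerset := by
      ext T
      rw [mem_filter, mem_powerset, mem_powerset]
      constructor
      · rintro ⟨h3, h4⟩ P hP
        rw [prod_dvd_iff fun P hP => hS P (h3 hP)] at h4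
        exact mem_filter.2 ⟨h3 hP, h4 P hP⟩
      · intro h3
        have h5 : T ⊆ S := fun P hP => (mem_filter.1 (h3 hP)).1
        refine ⟨h5, ?_⟩
        rw [prod_dvd_iff fun P hP => hS P (h5 hP)]
        exact fun P hP => (mem_filter.1 (h3 hP)).2
    rw [h2, card_powerset]
    unfold om
    push_cast
    rfl
  rw [sum_congr rfl h1, sum_comm, prod_one_add, mul_sum]
  refine sum_le_sum fun T hT => ?_
  rw [mem_powerset] at hT
  rw [sum_boole, ← wt_prod T fun P hP => (hS P (hT hP)).1]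
  exact card_dvd_le (monic_prod_of_monic _ _ fun P hP => (hS P (hT hP)).1) n

/-- upper tail -/
theorem card_om_ge (S : Finset k[X]) (hS : ∀ P ∈ S, P.Monic ∧ Irreducible P) (n : ℕ) (x : ℝ) :
    (2 : ℝ) ^ x * #{f ∈ Mon k n | x ≤ om S f} ≤
      (Nat.card k : ℝ) ^ n * Real.exp (∑ P ∈ S, wt P) := by
  classical
  refine le_trans ?_ ((sum_two_pow_om S hS n).trans ?_)
  · have h1 : (2 : ℝ) ^ x * #{f ∈ Mon k n | x ≤ om S f} =
        ∑ f ∈ Mon k n with x ≤ om S f, (2 : ℝ) ^ x := by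
      rw [sum_const, nsmul_eq_mul, mul_comm]
    rw [h1]
    refine (sum_le_sum (g := fun f => (2 : ℝ) ^ om S f) fun f hf => ?_).trans
      (sum_le_sum_of_subset_of_nonneg (filter_subset _ _) fun _ _ _ => by positivity)
    rw [mem_filter] at hf
    rw [← Real.rpow_natCast]
    exact Real.rpow_le_rpow_of_exponent_le (by norm_num) hf.2
  · refine mul_le_mul_of_nonneg_left ?_ (by positivity)
    rw [Real.exp_sum]
    refine prod_le_prod (fun P _ => by have := wt_nonneg P; positivity) fun P _ => ?_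
    rw [add_comm]
    exact Real.add_one_le_exp _

/-- first moment -/
theorem sum_om (S : Finset k[X]) (hS : ∀ P ∈ S, P.Monic ∧ Irreducible P) (n : ℕ)
    (hn : ∀ P ∈ S, P.natDegree ≤ n) :
    ∑ f ∈ Mon k n, (om S f : ℝ) = (Nat.card k : ℝ) ^ n * ∑ P ∈ S, wt P := by
  classical
  have h1 : ∀ f ∈ Mon k n, (om S f : ℝ) = ∑ P ∈ S, if P ∣ f then (1 : ℝ) else 0 := by
    intro f _
    rw [sum_boole]
    rfl
  rw [sum_congr rfl h1, sum_comm, mul_sum]
  refine sum_congr rfl fun P hP => ?_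
  rw [sum_boole]
  exact card_dvd_eq (hS P hP).1 n (hn P hP)

/-- second moment -/
theorem sum_om_sq (S : Finset k[X]) (hS : ∀ P ∈ S, P.Monic ∧ Irreducible P) (n : ℕ) :
    ∑ f ∈ Mon k n, (om S f : ℝ) ^ 2 ≤
      (Nat.card k : ℝ) ^ n * ((∑ P ∈ S, wt P) ^ 2 + ∑ P ∈ S, wt P) := by
  classical
  have h1 : ∀ f ∈ Mon k n, (om S f : ℝ) ^ 2 =
      ∑ P ∈ S, ∑ Q ∈ S, if P ∣ f ∧ Q ∣ f then (1 : ℝ) else 0 := by
    intro f _
    have h2 : (om S f : ℝ) = ∑ P ∈ S, if P ∣ f then (1 : ℝ) else 0 := by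
      rw [sum_boole]
      rfl
    rw [h2, sq, sum_mul_sum]
    refine sum_congr rfl fun P _ => sum_congr rfl fun Q _ => ?_
    by_cases h3 : P ∣ f <;> by_cases h4 : Q ∣ f <;> simp [h3, h4]
  rw [sum_congr rfl h1, sum_comm]
  have h5 : ∀ P ∈ S, ∑ f ∈ Mon k n, ∑ Q ∈ S, (if P ∣ f ∧ Q ∣ f then (1 : ℝ) else 0) ≤
      (Nat.card k : ℝ) ^ n * (wt P * (∑ Q ∈ S, wt Q) + wt P) := by
    intro P hP
    rw [sum_comm]
    have h6 : ∀ Q ∈ S, ∑ f ∈ Mon k n, (if P ∣ f ∧ Q ∣ f then (1 : ℝ) else 0) ≤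
        (Nat.card k : ℝ) ^ n * (wt P * wt Q + if Q = P then wt P else 0) := by
      intro Q hQ
      rw [sum_boole]
      by_cases hPQ : Q = P
      · subst hPQ
        rw [if_pos rfl]
        have h7 := card_dvd_le (hS Q hQ).1 n
        have h8 : {f ∈ Mon k n | Q ∣ f ∧ Q ∣ f} = {f ∈ Mon k n | Q ∣ f} := by
          ext f
          simp
        rw [h8]
        refine h7.trans (mul_le_mul_of_nonneg_left ?_ (by positivity))
        have := mul_nonneg (wt_nonneg Q) (wt_nonneg Q)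
        linarith
      · rw [if_neg hPQ, add_zero, ← wt_mul (hS P hP).1 (hS Q hQ).1]
        have h8 : {f ∈ Mon k n | P ∣ f ∧ Q ∣ f} = {f ∈ Mon k n | P * Q ∣ f} := by
          ext f
          simp only [mem_filter, and_congr_right_iff]
          intro _
          constructor
          · rintro ⟨h9, h10⟩
            exact (coprime_of_ne (hS P hP) (hS Q hQ) (Ne.symm hPQ)).mul_dvd h9 h10
          · intro h9
            exact ⟨(dvd_mul_right _ _).trans h9, (dvd_mul_left _ _).trans h9⟩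
        rw [h8]
        exact card_dvd_le ((hS P hP).1.mul (hS Q hQ).1) n
    refine (sum_le_sum h6).trans (le_of_eq ?_)
    rw [← mul_sum, sum_add_distrib, ← mul_sum, sum_ite_eq' S P, if_pos hP]
  refine (sum_le_sum h5).trans (le_of_eq ?_)
  rw [← mul_sum, sum_add_distrib, ← sum_mul, sq]

/-- lower tail (Chebyshev) -/
theorem card_om_le (S : Finset k[X]) (hS : ∀ P ∈ S, P.Monic ∧ Irreducible P) (n : ℕ)
    (hn : ∀ P ∈ S, P.natDegree ≤ n) :
    (∑ P ∈ S, wt P) * #{f ∈ Mon k n | 2 * (om S f : ℝ) ≤ ∑ P ∈ S, wt P} ≤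
      4 * (Nat.card k : ℝ) ^ n := by
  classical
  set μ := ∑ P ∈ S, wt P with hμ
  have hμ0 : 0 ≤ μ := sum_nonneg fun P _ => wt_nonneg P
  have h1 : ∑ f ∈ Mon k n, ((om S f : ℝ) - μ) ^ 2 ≤ (Nat.card k : ℝ) ^ n * μ := by
    have h2 : ∀ f ∈ Mon k n, ((om S f : ℝ) - μ) ^ 2 =
        (om S f : ℝ) ^ 2 - 2 * μ * (om S f : ℝ) + μ ^ 2 := fun f _ => by ring
    rw [sum_congr rfl h2, sum_add_distrib, sum_sub_distrib, ← mul_sum, sum_om S hS n hn,
      sum_const, card_Mon, nsmul_eq_mul]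
    have h3 := sum_om_sq S hS n
    rw [← hμ] at h3 ⊢
    push_cast
    nlinarith
  have h4 : μ ^ 2 / 4 * #{f ∈ Mon k n | 2 * (om S f : ℝ) ≤ μ} ≤
      ∑ f ∈ Mon k n, ((om S f : ℝ) - μ) ^ 2 := by
    have h5 : μ ^ 2 / 4 * #{f ∈ Mon k n | 2 * (om S f : ℝ) ≤ μ} =
        ∑ f ∈ Mon k n with 2 * (om S f : ℝ) ≤ μ, μ ^ 2 / 4 := by
      rw [sum_const, nsmul_eq_mul, mul_comm]
    rw [h5]
    refine (sum_le_sum (g := fun f => ((om S f : ℝ) - μ) ^ 2) fun f hf => ?_).trans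
      (sum_le_sum_of_subset_of_nonneg (filter_subset _ _) fun _ _ _ => sq_nonneg _)
    rw [mem_filter] at hf
    have h6 : 0 ≤ (om S f : ℝ) := Nat.cast_nonneg _
    nlinarith [hf.2]
  have h7 := h4.trans h1
  rcases hμ0.eq_or_lt with h0 | h0
  · rw [← h0, zero_mul]
    have := q_pos (k := k)
    positivity
  · have h8 : μ * (μ * #{f ∈ Mon k n | 2 * (om S f : ℝ) ≤ μ}) ≤
        μ * (4 * (Nat.card k : ℝ) ^ n) := by nlinarith
    exact le_of_mul_le_mul_left h8 h0

end mom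

end Pool.Agent.SmK
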